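import Mathlib

/-!
The cubics through the nodal elliptic quintic scroll in `ℙ^4` and the inverse of the Cremona
transformation that they define.
-/

namespace Pool.Agent.H286R5

variable {S : Type*} [CommRing S]

/-- first cubic -/
def R1 (A _B C D E : S) : S := A * D * E - E ^ 3 - C * D ^ 2
/-- second cubic -/
def R2 (_A B C D E : S) : S := B * D * E - D ^ 3 - C * E ^ 2
/-- third cubic -/
def R3 (A B C D E : S) : S := A * C * E - B * E ^ 2 + D ^ 2 * E - C ^ 2 * D
/-- fourth cubic -/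
def R4 (A B C D E : S) : S := B * C * D - A * D ^ 2 + D * E ^ 2 - C ^ 2 * E
/-- fifth cubic -/
def R5 (A B C D E : S) : S :=
  A * B * C - C ^ 3 + C * D * E - A ^ 2 * D + A * E ^ 2 - B ^ 2 * E + B * D ^ 2

/-- the quintic contracted by the Cremona transformation -/
def Dl (A B C D E : S) : S :=
  A*B*C*D*E - A^2*D^2*E - A*C^2*E^2 + A*C*D^3 + (A*D*E^3 + A*D*E^3) - B^2*D*E^2 - B*C^2*D^2 +
    B*C*E^3 + (B*D^3*E + B*D^3*E) + C^3*D*E - (C*D^2*E^2 + C*D^2*E^2 + C*D^2*E^2) - D^5 - E^5

theorem id_A (A B C D E : S) : R1 A B C D E * R5 A B C D E - R2 A B C D E * R4 A B C D E -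
    R3 A B C D E ^ 2 = Dl A B C D E * A := by
  simp only [R1, R2, R3, R4, R5, Dl]; ring

theorem id_B (A B C D E : S) : R2 A B C D E * R5 A B C D E - R1 A B C D E * R3 A B C D E -
    R4 A B C D E ^ 2 = Dl A B C D E * B := by
  simp only [R1, R2, R3, R4, R5, Dl]; ring

theorem id_C (A B C D E : S) : R3 A B C D E * R4 A B C D E - R1 A B C D E * R2 A B C D E =
    Dl A B C D E * C := by
  simp only [R1, R2, R3, R4, Dl]; ring

theorem id_D (A B C D E : S) : R1 A B C D E * R4 A B C D E - R2 A B C D E ^ 2 =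
    Dl A B C D E * D := by
  simp only [R1, R2, R4, Dl]; ring

theorem id_E (A B C D E : S) : R2 A B C D E * R3 A B C D E - R1 A B C D E ^ 2 =
    Dl A B C D E * E := by
  simp only [R1, R2, R3, Dl]; ring

end Pool.Agent.H286R5
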