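import Mathlib
import Pool.Agent.H286R4.LefDefs

/-!
General linear projections to a hyperplane, the degree of their scheme-theoretic fibres and the
`k`-fold loci.
-/

namespace Pool.Agent.H286R5

open Pool.Agent.H286R4

variable {σ τ : Type}

/-- `X` lies in no hyperplane: no nonzero linear form vanishes on `X`. -/
def Nondegenerate (X : Set (PS σ)) : Prop :=
  ∀ l : MvPolynomial σ ℂ, l.IsHomogeneous 1 → l ≠ 0 → ∃ p ∈ X, MvPolynomial.eval p.rep l ≠ 0

/-- The restriction of `f` to the line through `y` and `o`, that is, the form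
`f (X₀ y + X₁ o)` in two variables. -/
noncomputable def lineRes (o y : σ → ℂ) (f : MvPolynomial σ ℂ) : MvPolynomial (Fin 2) ℂ :=
  MvPolynomial.aeval (fun i => MvPolynomial.C (y i) * MvPolynomial.X 0 +
    MvPolynomial.C (o i) * MvPolynomial.X 1) f

/-- The scheme-theoretic intersection of `X` with the line through `o` and `y` has degree at least
`k`: the restrictions to this line of the forms that vanish on `X` have a common divisor of
degree `k`. -/
def FibDegGE (X : Set (PS σ)) (o y : σ → ℂ) (k : ℕ) : Prop :=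
  ∃ q : MvPolynomial (Fin 2) ℂ, q.IsHomogeneous k ∧ q ≠ 0 ∧
    ∀ (m : ℕ) (f : MvPolynomial σ ℂ), f.IsHomogeneous m →
      (∀ p ∈ X, MvPolynomial.eval p.rep f = 0) → q ∣ lineRes o y f

/-- The `k`-fold locus of the projection of `X` from the point `o`, given by the linear map `L`
with kernel the line spanned by `o`: the points `z` over which the scheme-theoretic fibre (the
intersection of `X` with the line that `L` maps to `z`) has degree at least `k`. -/
def kLocus (X : Set (PS σ)) (o : σ → ℂ) (L : (σ → ℂ) →ₗ[ℂ] (τ → ℂ)) (k : ℕ) : Set (PS τ) :=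
  {z | ∃ y, L y = z.rep ∧ FibDegGE X o y k}

/-- Connectedness of a subset of a projective space in the Zariski topology. -/
def IsZConnected (S : Set (PS τ)) : Prop :=
  ∀ Z₁ Z₂ : Set (PS τ), IsZClosed Z₁ → IsZClosed Z₂ → S ⊆ Z₁ ∪ Z₂ → S ∩ Z₁ ∩ Z₂ = ∅ →
    S ⊆ Z₁ ∨ S ⊆ Z₂

/-- Zak's connectedness conjecture for the multiple loci of general projections: if
`X ⊆ ℙ^N` is a nondegenerate irreducible variety of dimension `n` and
`N - 1 ≥ (k + 1) (N - n - 1)`, then for all points `o` outside a proper closed subset of `ℙ^N` and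
outside `X` the `k`-fold locus of the projection from `o` is connected. -/
def ZakConnectedness : Prop :=
  ∀ (N n k : ℕ) (X : Set (PS (Fin (N + 1)))), IsVariety X → HasDim X n → Nondegenerate X →
    n < N → 1 ≤ k → (k + 1) * (N - n - 1) ≤ N - 1 →
    ∃ Z : Set (PS (Fin (N + 1))), IsZClosed Z ∧ Z ≠ Set.univ ∧
      ∀ (o : Fin (N + 1) → ℂ) (ho : o ≠ 0), Projectivization.mk ℂ o ho ∉ Z →
        Projectivization.mk ℂ o ho ∉ X →
        ∀ L : (Fin (N + 1) → ℂ) →ₗ[ℂ] (Fin N → ℂ), Function.Surjective L → L o = 0 →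
          IsZConnected (kLocus X o L k)

end Pool.Agent.H286R5
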