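import Mathlib
import Pool.Agent.H286R5.ZakAlg

/-!
The elimination polynomial that isolates one point of the triple locus.
-/

namespace Pool.Agent.H286R5

open Polynomial

section general

variable {S T : Type*} [CommRing S] [CommRing T]

/-- the five sextics -/
def G (j : Fin 5) (v : Fin 6 → S) : S :=
  match j with
  | 0 => R1 ((v 0 + v 1) * v 2) ((v 0 + v 1) * v 3) (v 0 * v 1) ((v 0 + v 1) * v 4)
      ((v 0 + v 1) * v 5)
  | 1 => R2 ((v 0 + v 1) * v 2) ((v 0 + v 1) * v 3) (v 0 * v 1) ((v 0 + v 1) * v 4)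
      ((v 0 + v 1) * v 5)
  | 2 => R3 ((v 0 + v 1) * v 2) ((v 0 + v 1) * v 3) (v 0 * v 1) ((v 0 + v 1) * v 4)
      ((v 0 + v 1) * v 5)
  | 3 => R4 ((v 0 + v 1) * v 2) ((v 0 + v 1) * v 3) (v 0 * v 1) ((v 0 + v 1) * v 4)
      ((v 0 + v 1) * v 5)
  | 4 => R5 ((v 0 + v 1) * v 2) ((v 0 + v 1) * v 3) (v 0 * v 1) ((v 0 + v 1) * v 4)
      ((v 0 + v 1) * v 5)

/-- the pulled back quintic -/
def GD (v : Fin 6 → S) : S :=
  Dl ((v 0 + v 1) * v 2) ((v 0 + v 1) * v 3) (v 0 * v 1) ((v 0 + v 1) * v 4) ((v 0 + v 1) * v 5)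

theorem map_G (φ : S →+* T) (j : Fin 5) (v : Fin 6 → S) : φ (G j v) = G j (fun i => φ (v i)) := by
  match j with
  | 0 => simp [G, R1]
  | 1 => simp [G, R2]
  | 2 => simp [G, R3]
  | 3 => simp [G, R4]
  | 4 => simp [G, R5]

theorem map_GD (φ : S →+* T) (v : Fin 6 → S) : φ (GD v) = GD (fun i => φ (v i)) := by
  simp [GD, Dl]

/-- combinations of the sextics -/
def FF (c : Fin 4 → Fin 5 → S) (s : Fin 4) (v : Fin 6 → S) : S := ∑ j, c s j * G j v

/-- the eight forms used in the elimination -/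
def col (c : Fin 4 → Fin 5 → S) (v : Fin 6 → S) (l : Fin 8) : S :=
  match l with
  | 0 => GD v
  | 1 => FF c 0 v * FF c 0 v
  | 2 => FF c 0 v * FF c 1 v
  | 3 => FF c 0 v * FF c 2 v
  | 4 => FF c 0 v * FF c 3 v
  | 5 => FF c 1 v * FF c 3 v
  | 6 => FF c 2 v * FF c 3 v
  | 7 => FF c 3 v * FF c 3 v

theorem map_FF (φ : S →+* T) (c : Fin 4 → Fin 5 → S) (s : Fin 4) (v : Fin 6 → S) :
    φ (FF c s v) = FF (fun s j => φ (c s j)) s (fun i => φ (v i)) := by
  simp only [FF, map_sum, map_mul, map_G]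

theorem map_col (φ : S →+* T) (c : Fin 4 → Fin 5 → S) (v : Fin 6 → S) (l : Fin 8) :
    φ (col c v l) = col (fun s j => φ (c s j)) (fun i => φ (v i)) l := by
  match l with
  | 0 => exact map_GD φ v
  | 1 => simp only [col, map_mul, map_FF]
  | 2 => simp only [col, map_mul, map_FF]
  | 3 => simp only [col, map_mul, map_FF]
  | 4 => simp only [col, map_mul, map_FF]
  | 5 => simp only [col, map_mul, map_FF]
  | 6 => simp only [col, map_mul, map_FF]
  | 7 => simp only [col, map_mul, map_FF]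

end general

/-- the points of the line through `y` and `o` -/
noncomputable def vh (o y : Fin 6 → ℂ) (i : Fin 6) : ℂ[X] := C (y i) + C (o i) * X

/-- the elimination matrix -/
noncomputable def Mat (c : Fin 4 → Fin 5 → ℂ) (o y : Fin 6 → ℂ) : Matrix (Fin 8) (Fin 8) ℂ :=
  Matrix.of fun k l => (col (fun s j => C (c s j)) (vh o y) l).coeff (5 + (k : ℕ))

/-- the elimination polynomial -/
noncomputable def hpol (c : Fin 4 → Fin 5 → ℂ) (o : Fin 6 → ℂ) : MvPolynomial (Fin 6) ℂ :=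
  Matrix.det (Matrix.of fun k l : Fin 8 =>
    (col (S := (MvPolynomial (Fin 6) ℂ)[X]) (fun s j => C (MvPolynomial.C (c s j)))
      (fun i => C (MvPolynomial.X i) + C (MvPolynomial.C (o i)) * X) l).coeff (5 + (k : ℕ)))

theorem eval_hpol (c : Fin 4 → Fin 5 → ℂ) (o y : Fin 6 → ℂ) :
    MvPolynomial.eval y (hpol c o) = (Mat c o y).det := by
  rw [hpol, RingHom.map_det]
  congr 1
  ext k l
  simp only [RingHom.mapMatrix_apply, Matrix.map_apply, Matrix.of_apply, Mat]
  rw [← Polynomial.coeff_map, ← Polynomial.coe_mapRingHom, map_col]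
  congr 2
  · funext s j
    simp
  · funext i
    simp [vh]

/-- the sextics are forms of degree six -/
theorem G_hom (j : Fin 5) :
    (G j (fun i => (MvPolynomial.X i : MvPolynomial (Fin 6) ℂ))).IsHomogeneous 6 := by
  have hs : (MvPolynomial.X 0 + MvPolynomial.X 1 : MvPolynomial (Fin 6) ℂ).IsHomogeneous 1 :=
    (MvPolynomial.isHomogeneous_X _ _).add (MvPolynomial.isHomogeneous_X _ _)
  have hA : ((MvPolynomial.X 0 + MvPolynomial.X 1) * MvPolynomial.X 2 :
    MvPolynomial (Fin 6) ℂ).IsHomogeneous 2 := hs.mul (MvPolynomial.isHomogeneous_X _ _)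
  have hB : ((MvPolynomial.X 0 + MvPolynomial.X 1) * MvPolynomial.X 3 :
    MvPolynomial (Fin 6) ℂ).IsHomogeneous 2 := hs.mul (MvPolynomial.isHomogeneous_X _ _)
  have hC : (MvPolynomial.X 0 * MvPolynomial.X 1 :
    MvPolynomial (Fin 6) ℂ).IsHomogeneous 2 :=
    (MvPolynomial.isHomogeneous_X _ _).mul (MvPolynomial.isHomogeneous_X _ _)
  have hD : ((MvPolynomial.X 0 + MvPolynomial.X 1) * MvPolynomial.X 4 :
    MvPolynomial (Fin 6) ℂ).IsHomogeneous 2 := hs.mul (MvPolynomial.isHomogeneous_X _ _)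
  have hE : ((MvPolynomial.X 0 + MvPolynomial.X 1) * MvPolynomial.X 5 :
    MvPolynomial (Fin 6) ℂ).IsHomogeneous 2 := hs.mul (MvPolynomial.isHomogeneous_X _ _)
  match j with
  | 0 => exact ((((hA.mul hD).mul hE).sub (hE.pow 3)).sub (hC.mul (hD.pow 2)))
  | 1 => exact ((((hB.mul hD).mul hE).sub (hD.pow 3)).sub (hC.mul (hE.pow 2)))
  | 2 => exact (((((hA.mul hC).mul hE).sub (hB.mul (hE.pow 2))).add ((hD.pow 2).mul hE)).sub
      ((hC.pow 2).mul hD))
  | 3 => exact (((((hB.mul hC).mul hD).sub (hA.mul (hD.pow 2))).add (hD.mul (hE.pow 2))).sub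
      ((hC.pow 2).mul hE))
  | 4 =>
    have e1 := (((hA.mul hB).mul hC).sub (hC.pow 3)).add ((hC.mul hD).mul hE)
    have e2 := (e1.sub ((hA.pow 2).mul hD)).add (hA.mul (hE.pow 2))
    have e3 := (e2.sub ((hB.pow 2).mul hE)).add (hB.mul (hD.pow 2))
    exact e3

/-- the pulled back quintic is a form of degree ten -/
theorem GD_hom :
    (GD (fun i => (MvPolynomial.X i : MvPolynomial (Fin 6) ℂ))).IsHomogeneous 10 := by
  have hs : (MvPolynomial.X 0 + MvPolynomial.X 1 : MvPolynomial (Fin 6) ℂ).IsHomogeneous 1 :=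
    (MvPolynomial.isHomogeneous_X _ _).add (MvPolynomial.isHomogeneous_X _ _)
  have hA : ((MvPolynomial.X 0 + MvPolynomial.X 1) * MvPolynomial.X 2 :
    MvPolynomial (Fin 6) ℂ).IsHomogeneous 2 := hs.mul (MvPolynomial.isHomogeneous_X _ _)
  have hB : ((MvPolynomial.X 0 + MvPolynomial.X 1) * MvPolynomial.X 3 :
    MvPolynomial (Fin 6) ℂ).IsHomogeneous 2 := hs.mul (MvPolynomial.isHomogeneous_X _ _)
  have hC : (MvPolynomial.X 0 * MvPolynomial.X 1 :
    MvPolynomial (Fin 6) ℂ).IsHomogeneous 2 :=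
    (MvPolynomial.isHomogeneous_X _ _).mul (MvPolynomial.isHomogeneous_X _ _)
  have hD : ((MvPolynomial.X 0 + MvPolynomial.X 1) * MvPolynomial.X 4 :
    MvPolynomial (Fin 6) ℂ).IsHomogeneous 2 := hs.mul (MvPolynomial.isHomogeneous_X _ _)
  have hE : ((MvPolynomial.X 0 + MvPolynomial.X 1) * MvPolynomial.X 5 :
    MvPolynomial (Fin 6) ℂ).IsHomogeneous 2 := hs.mul (MvPolynomial.isHomogeneous_X _ _)
  have e1 := (((hA.mul hB).mul hC).mul hD).mul hE
  have e2 := ((hA.pow 2).mul (hD.pow 2)).mul hE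
  have e3 := (hA.mul (hC.pow 2)).mul (hE.pow 2)
  have e4 := (hA.mul hC).mul (hD.pow 3)
  have e5 := (hA.mul hD).mul (hE.pow 3)
  have e6 := ((hB.pow 2).mul hD).mul (hE.pow 2)
  have e7 := (hB.mul (hC.pow 2)).mul (hD.pow 2)
  have e8 := (hB.mul hC).mul (hE.pow 3)
  have e9 := (hB.mul (hD.pow 3)).mul hE
  have e10 := ((hC.pow 3).mul hD).mul hE
  have e11 := (hC.mul (hD.pow 2)).mul (hE.pow 2)
  have e12 := hD.pow 5
  have e13 := hE.pow 5
  exact ((((((((((((e1.sub e2).sub e3).add e4).add (e5.add e5)).sub e6).sub e7).add e8).add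
    (e9.add e9)).add e10).sub ((e11.add e11).add e11)).sub e12).sub e13)

theorem natDegree_aeval_le {p : MvPolynomial (Fin 6) ℂ} {d : ℕ} (hp : p.IsHomogeneous d)
    (v : Fin 6 → ℂ[X]) (hv : ∀ i, (v i).natDegree ≤ 1) :
    (MvPolynomial.aeval v p).natDegree ≤ d := by
  rw [MvPolynomial.aeval_def, MvPolynomial.eval₂_eq]
  refine Polynomial.natDegree_sum_le_of_forall_le _ _ fun m hm => ?_
  have h1 : m.degree = d := by
    by_contra hne
    exact MvPolynomial.mem_support_iff.mp hm (hp.coeff_eq_zero hne)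
  refine (Polynomial.natDegree_C_mul_le _ _).trans ?_
  refine (Polynomial.natDegree_prod_le _ _).trans ?_
  rw [← h1]
  refine (Finset.sum_le_sum fun i _ => (Polynomial.natDegree_pow_le).trans
    (Nat.mul_le_mul_left (m i) (hv i))).trans ?_
  simp only [mul_one]
  exact le_rfl

theorem vh_deg (o y : Fin 6 → ℂ) (i : Fin 6) : (vh o y i).natDegree ≤ 1 := by
  simp only [vh]
  compute_degree

theorem G_aeval (j : Fin 5) (v : Fin 6 → ℂ[X]) :
    G j v = MvPolynomial.aeval v (G j (fun i => (MvPolynomial.X i : MvPolynomial (Fin 6) ℂ))) := by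
  have := map_G (MvPolynomial.aeval v : MvPolynomial (Fin 6) ℂ →ₐ[ℂ] ℂ[X]).toRingHom j
    (fun i => MvPolynomial.X i)
  simp only [AlgHom.toRingHom_eq_coe, RingHom.coe_coe, MvPolynomial.aeval_X] at this
  exact this.symm

theorem GD_aeval (v : Fin 6 → ℂ[X]) :
    GD v = MvPolynomial.aeval v (GD (fun i => (MvPolynomial.X i : MvPolynomial (Fin 6) ℂ))) := by
  have := map_GD (MvPolynomial.aeval v : MvPolynomial (Fin 6) ℂ →ₐ[ℂ] ℂ[X]).toRingHom
    (fun i => MvPolynomial.X i)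
  simp only [AlgHom.toRingHom_eq_coe, RingHom.coe_coe, MvPolynomial.aeval_X] at this
  exact this.symm

theorem G_deg (j : Fin 5) (o y : Fin 6 → ℂ) : (G j (vh o y)).natDegree ≤ 6 := by
  rw [G_aeval]
  exact natDegree_aeval_le (G_hom j) _ (vh_deg o y)

theorem GD_deg (o y : Fin 6 → ℂ) : (GD (vh o y)).natDegree ≤ 12 := by
  rw [GD_aeval]
  exact (natDegree_aeval_le GD_hom _ (vh_deg o y)).trans (by norm_num)

theorem FF_deg (c : Fin 4 → Fin 5 → ℂ) (s : Fin 4) (o y : Fin 6 → ℂ) :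
    (FF (fun s j => C (c s j)) s (vh o y)).natDegree ≤ 6 :=
  Polynomial.natDegree_sum_le_of_forall_le _ _ fun j _ =>
    (Polynomial.natDegree_C_mul_le _ _).trans (G_deg j o y)

theorem col_deg (c : Fin 4 → Fin 5 → ℂ) (o y : Fin 6 → ℂ) (l : Fin 8) :
    (col (fun s j => C (c s j)) (vh o y) l).natDegree ≤ 12 := by
  have h : ∀ s t, (FF (fun s j => C (c s j)) s (vh o y) *
      FF (fun s j => C (c s j)) t (vh o y)).natDegree ≤ 12 := fun s t =>
    (Polynomial.natDegree_mul_le).trans (Nat.add_le_add (FF_deg c s o y) (FF_deg c t o y))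
  match l with
  | 0 => exact GD_deg o y
  | 1 => exact h 0 0
  | 2 => exact h 0 1
  | 3 => exact h 0 2
  | 4 => exact h 0 3
  | 5 => exact h 1 3
  | 6 => exact h 2 3
  | 7 => exact h 3 3

/-- the elimination: a common divisor of degree three forces the determinant to vanish -/
theorem det_zero (c : Fin 4 → Fin 5 → ℂ) (o y : Fin 6 → ℂ) (q : ℂ[X]) (hq : q.natDegree = 3)
    (hG : ∀ j, q ∣ G j (vh o y)) (hD : q ^ 2 ∣ GD (vh o y)) :
    (Mat c o y).det = 0 := by
  have hq0 : q ≠ 0 := by rintro rfl; simp at hq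
  have hF : ∀ s, q ∣ FF (fun s j => C (c s j)) s (vh o y) := fun s =>
    Finset.dvd_sum fun j _ => (hG j).mul_left _
  have hFF : ∀ s t, q ^ 2 ∣ FF (fun s j => C (c s j)) s (vh o y) *
      FF (fun s j => C (c s j)) t (vh o y) := fun s t => by
    rw [pow_two]
    exact mul_dvd_mul (hF s) (hF t)
  have hcol : ∀ l, q ^ 2 ∣ col (fun s j => C (c s j)) (vh o y) l := by
    intro l
    match l with
    | 0 => exact hD
    | 1 => exact hFF 0 0
    | 2 => exact hFF 0 1
    | 3 => exact hFF 0 2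
    | 4 => exact hFF 0 3
    | 5 => exact hFF 1 3
    | 6 => exact hFF 2 3
    | 7 => exact hFF 3 3
  choose u hu using hcol
  have hud : ∀ l, (u l).natDegree ≤ 6 := by
    intro l
    by_cases h0 : u l = 0
    · rw [h0]; simp
    · have h1 := col_deg c o y l
      rw [hu l, Polynomial.natDegree_mul (pow_ne_zero _ hq0) h0, Polynomial.natDegree_pow, hq] at h1
      omega
  let f : (Fin 8 → ℂ) →ₗ[ℂ] (Fin 7 → ℂ) :=
    { toFun := fun α i => ∑ l, α l * (u l).coeff i
      map_add' := by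
        intro a b; funext i
        simp [add_mul, Finset.sum_add_distrib]
      map_smul' := by
        intro r a; funext i
        simp [mul_assoc, Finset.mul_sum] }
  have hker : LinearMap.ker f ≠ ⊥ := LinearMap.ker_ne_bot_of_finrank_lt (by simp)
  obtain ⟨α, hα, hα0⟩ := (Submodule.ne_bot_iff _).mp hker
  have hsum : ∑ l, C (α l) * u l = 0 := by
    ext n
    rw [Polynomial.finsetSum_coeff, Polynomial.coeff_zero]
    by_cases hn : n < 7
    · have := congrFun (LinearMap.mem_ker.mp hα) ⟨n, hn⟩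
      simpa [f] using this
    · refine Finset.sum_eq_zero fun l _ => ?_
      rw [Polynomial.coeff_C_mul, Polynomial.coeff_eq_zero_of_natDegree_lt, mul_zero]
      have := hud l
      omega
  refine Matrix.exists_mulVec_eq_zero_iff.mp ⟨α, hα0, ?_⟩
  funext k
  have h2 : ∑ l, C (α l) * col (fun s j => C (c s j)) (vh o y) l = 0 := by
    have : ∑ l, C (α l) * col (fun s j => C (c s j)) (vh o y) l =
        q ^ 2 * ∑ l, C (α l) * u l := by
      rw [Finset.mul_sum]
      refine Finset.sum_congr rfl fun l _ => ?_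
      rw [hu l]
      ring
    rw [this, hsum, mul_zero]
  have h3 := congrArg (fun p : ℂ[X] => p.coeff (5 + (k : ℕ))) h2
  simp only [Polynomial.finsetSum_coeff, Polynomial.coeff_C_mul, Polynomial.coeff_zero] at h3
  rw [Pi.zero_apply, ← h3]
  simp only [Matrix.mulVec, dotProduct, Mat, Matrix.of_apply]
  exact Finset.sum_congr rfl fun l _ => mul_comm _ _

end Pool.Agent.H286R5
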