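import Mathlib
import Pool.Agent.H286R5.ZakIso

/-!
The elimination polynomial vanishes on the triple locus away from one point and does not vanish
at this point.
-/

namespace Pool.Agent.H286R5

open Polynomial

theorem dvd_of_coprime {q D s p r : ℂ[X]} (h : IsCoprime p r) (h1 : q ∣ D * (s * p))
    (h2 : q ∣ D * (s * r)) : q ∣ D * s := by
  obtain ⟨a, b, hab⟩ := h
  have : D * s = a * (D * (s * p)) + b * (D * (s * r)) := by
    calc D * s = D * s * (a * p + b * r) := by rw [hab, mul_one]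
      _ = _ := by ring
  rw [this]
  exact dvd_add (h1.mul_left _) (h2.mul_left _)

theorem coprime_of_const {p r a b : ℂ[X]} {c : ℂ} (hc : c ≠ 0) (h : a * p + b * r = C c) :
    IsCoprime p r := by
  refine ⟨C c⁻¹ * a, C c⁻¹ * b, ?_⟩
  rw [mul_assoc, mul_assoc, ← mul_add, h, ← C_mul, inv_mul_cancel₀ hc, C_1]

theorem sq_dvd_GD {q : ℂ[X]} (v : Fin 6 → ℂ[X]) (hG : ∀ j, q ∣ G j v)
    (h01 : IsCoprime (v 0) (v 1)) (h1i : ∃ i : Fin 6, i ≠ 0 ∧ i ≠ 1 ∧ IsCoprime (v 1) (v i))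
    (h04 : IsCoprime (v 0) (v 4)) : q ^ 2 ∣ GD v := by
  have hp : ∀ i j, q ^ 2 ∣ G i v * G j v := fun i j => by
    rw [pow_two]
    exact mul_dvd_mul (hG i) (hG j)
  have hA : q ^ 2 ∣ GD v * ((v 0 + v 1) * v 2) := by
    have := id_A ((v 0 + v 1) * v 2) ((v 0 + v 1) * v 3) (v 0 * v 1) ((v 0 + v 1) * v 4)
      ((v 0 + v 1) * v 5)
    rw [GD, ← this, pow_two (R3 _ _ _ _ _)]
    exact dvd_sub (dvd_sub (hp 0 4) (hp 1 3)) (hp 2 2)
  have hB : q ^ 2 ∣ GD v * ((v 0 + v 1) * v 3) := by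
    have := id_B ((v 0 + v 1) * v 2) ((v 0 + v 1) * v 3) (v 0 * v 1) ((v 0 + v 1) * v 4)
      ((v 0 + v 1) * v 5)
    rw [GD, ← this, pow_two (R4 _ _ _ _ _)]
    exact dvd_sub (dvd_sub (hp 1 4) (hp 0 2)) (hp 3 3)
  have hC : q ^ 2 ∣ GD v * (v 0 * v 1) := by
    have := id_C ((v 0 + v 1) * v 2) ((v 0 + v 1) * v 3) (v 0 * v 1) ((v 0 + v 1) * v 4)
      ((v 0 + v 1) * v 5)
    rw [GD, ← this]
    exact dvd_sub (hp 2 3) (hp 0 1)
  have hD : q ^ 2 ∣ GD v * ((v 0 + v 1) * v 4) := by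
    have := id_D ((v 0 + v 1) * v 2) ((v 0 + v 1) * v 3) (v 0 * v 1) ((v 0 + v 1) * v 4)
      ((v 0 + v 1) * v 5)
    rw [GD, ← this, pow_two (R2 _ _ _ _ _)]
    exact dvd_sub (hp 0 3) (hp 1 1)
  have hE : q ^ 2 ∣ GD v * ((v 0 + v 1) * v 5) := by
    have := id_E ((v 0 + v 1) * v 2) ((v 0 + v 1) * v 3) (v 0 * v 1) ((v 0 + v 1) * v 4)
      ((v 0 + v 1) * v 5)
    rw [GD, ← this, pow_two (R1 _ _ _ _ _)]
    exact dvd_sub (hp 1 2) (hp 0 0)
  have hall : ∀ i : Fin 6, i ≠ 0 → i ≠ 1 → q ^ 2 ∣ GD v * ((v 0 + v 1) * v i) := by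
    intro i h0 h1
    match i with
    | 0 => exact absurd rfl h0
    | 1 => exact absurd rfl h1
    | 2 => exact hA
    | 3 => exact hB
    | 4 => exact hD
    | 5 => exact hE
  obtain ⟨i, hi0, hi1, hi⟩ := h1i
  have hs0 : IsCoprime (v 0) (v 0 + v 1) := by
    have := h01.add_mul_left_right 1
    rwa [mul_one, add_comm] at this
  have hs1 : IsCoprime (v 1) (v 0 + v 1) := by
    have := h01.symm.add_mul_left_right 1
    rwa [mul_one] at this
  have h0 : q ^ 2 ∣ GD v * v 0 := by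
    refine dvd_of_coprime (hs1.mul_right hi) hC ?_
    rw [mul_left_comm]
    exact (hall i hi0 hi1).mul_left _
  have key : q ^ 2 ∣ GD v * 1 :=
    dvd_of_coprime (q := q ^ 2) (D := GD v) (s := 1) (p := v 0) (r := (v 0 + v 1) * v 4)
      (hs0.mul_right h04) (by rw [one_mul]; exact h0) (by rw [one_mul]; exact hD)
  rwa [mul_one] at key

/-- the linear factors at the special point -/
noncomputable def Qf (o : Fin 6 → ℂ) : ℂ[X] := 1 + C (o 0 + o 1) * X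
/-- the second linear factor -/
noncomputable def Pf (o : Fin 6 → ℂ) : ℂ[X] := C (o 1) * (1 + C (o 0) * X)

/-- the residual cubics -/
noncomputable def gg (o : Fin 6 → ℂ) (j : Fin 5) : ℂ[X] :=
  match j with
  | 0 => R1 (Qf o * C (o 2)) (Qf o * C (o 3)) (Pf o) (Qf o * C (o 4)) (Qf o * C (o 5))
  | 1 => R2 (Qf o * C (o 2)) (Qf o * C (o 3)) (Pf o) (Qf o * C (o 4)) (Qf o * C (o 5))
  | 2 => R3 (Qf o * C (o 2)) (Qf o * C (o 3)) (Pf o) (Qf o * C (o 4)) (Qf o * C (o 5))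
  | 3 => R4 (Qf o * C (o 2)) (Qf o * C (o 3)) (Pf o) (Qf o * C (o 4)) (Qf o * C (o 5))
  | 4 => R5 (Qf o * C (o 2)) (Qf o * C (o 3)) (Pf o) (Qf o * C (o 4)) (Qf o * C (o 5))

/-- the special point -/
noncomputable def y0 : Fin 6 → ℂ := Pi.single 0 1

theorem vh0 (o : Fin 6 → ℂ) : vh o y0 0 = 1 + C (o 0) * X := by simp [vh, y0]
theorem vh1 (o : Fin 6 → ℂ) : vh o y0 1 = C (o 1) * X := by simp [vh, y0]
theorem vh2 (o : Fin 6 → ℂ) : vh o y0 2 = C (o 2) * X := by simp [vh, y0]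
theorem vh3 (o : Fin 6 → ℂ) : vh o y0 3 = C (o 3) * X := by simp [vh, y0]
theorem vh4 (o : Fin 6 → ℂ) : vh o y0 4 = C (o 4) * X := by simp [vh, y0]
theorem vh5 (o : Fin 6 → ℂ) : vh o y0 5 = C (o 5) * X := by simp [vh, y0]

theorem G_y0 (o : Fin 6 → ℂ) (j : Fin 5) : G j (vh o y0) = X ^ 3 * gg o j := by
  match j with
  | 0 => simp only [G, gg, R1, vh0, vh1, vh2, vh3, vh4, vh5, Qf, Pf, C_add]; ring
  | 1 => simp only [G, gg, R2, vh0, vh1, vh2, vh3, vh4, vh5, Qf, Pf, C_add]; ring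
  | 2 => simp only [G, gg, R3, vh0, vh1, vh2, vh3, vh4, vh5, Qf, Pf, C_add]; ring
  | 3 => simp only [G, gg, R4, vh0, vh1, vh2, vh3, vh4, vh5, Qf, Pf, C_add]; ring
  | 4 => simp only [G, gg, R5, vh0, vh1, vh2, vh3, vh4, vh5, Qf, Pf, C_add]; ring

theorem GD_y0 (o : Fin 6 → ℂ) : GD (vh o y0) = X ^ 5 *
    Dl (Qf o * C (o 2)) (Qf o * C (o 3)) (Pf o) (Qf o * C (o 4)) (Qf o * C (o 5)) := by
  simp only [GD, Dl, vh0, vh1, vh2, vh3, vh4, vh5, Qf, Pf, C_add]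
  ring

/-- the value of the determinant at the special point -/
theorem det_y0 (c : Fin 4 → Fin 5 → ℂ) (o : Fin 6 → ℂ)
    (hc : ∀ s, ∑ j, C (c s j) * gg o j = X ^ (s : ℕ)) :
    (Mat c o y0).det = Dl (o 2) (o 3) (o 1) (o 4) (o 5) := by
  have hF : ∀ s, FF (fun s j => C (c s j)) s (vh o y0) = X ^ (3 + (s : ℕ)) := by
    intro s
    rw [FF, pow_add, ← hc s, Finset.mul_sum]
    refine Finset.sum_congr rfl fun j _ => ?_
    rw [G_y0]
    ring
  have hcol : ∀ l : Fin 8, l ≠ 0 → col (fun s j => C (c s j)) (vh o y0) l =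
      X ^ (5 + (l : ℕ)) := by
    intro l hl
    match l with
    | 0 => exact absurd rfl hl
    | 1 => simp only [col, hF]; rw [← pow_add]; rfl
    | 2 => simp only [col, hF]; rw [← pow_add]; rfl
    | 3 => simp only [col, hF]; rw [← pow_add]; rfl
    | 4 => simp only [col, hF]; rw [← pow_add]; rfl
    | 5 => simp only [col, hF]; rw [← pow_add]; rfl
    | 6 => simp only [col, hF]; rw [← pow_add]; rfl
    | 7 => simp only [col, hF]; rw [← pow_add]; rfl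
  have hM : ∀ k l : Fin 8, l ≠ 0 → Mat c o y0 k l = if k = l then 1 else 0 := by
    intro k l hl
    rw [Mat, Matrix.of_apply, hcol l hl, Polynomial.coeff_X_pow]
    simp only [Nat.add_left_cancel_iff, Fin.ext_iff]
  rw [Matrix.det_of_isLowerTriangular]
  · rw [Fin.prod_univ_succ]
    have h1 : ∏ i : Fin 7, Mat c o y0 i.succ i.succ = 1 :=
      Finset.prod_eq_one fun i _ => by rw [hM _ _ (Fin.succ_ne_zero i), if_pos rfl]
    rw [h1, mul_one, Mat, Matrix.of_apply]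
    change (GD (vh o y0)).coeff (5 + 0) = _
    rw [GD_y0, add_comm 5 0, Polynomial.coeff_X_pow_mul, Polynomial.coeff_zero_eq_eval_zero]
    simp [Dl, Qf, Pf]
  · intro k l hkl
    have hkl' : k < l := hkl
    rw [hM k l (by rintro rfl; exact absurd hkl' (Fin.not_lt_zero _)), if_neg hkl'.ne]

/-- the combinations of the residual cubics -/
def InS (o : Fin 6 → ℂ) (p : ℂ[X]) : Prop := ∃ c : Fin 5 → ℂ, ∑ j, C (c j) * gg o j = p

theorem InS.add {o : Fin 6 → ℂ} {p q : ℂ[X]} (hp : InS o p) (hq : InS o q) : InS o (p + q) := by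
  obtain ⟨c, rfl⟩ := hp
  obtain ⟨d, rfl⟩ := hq
  refine ⟨fun j => c j + d j, ?_⟩
  rw [← Finset.sum_add_distrib]
  refine Finset.sum_congr rfl fun j _ => ?_
  rw [C_add]; ring

theorem InS.cmul {o : Fin 6 → ℂ} {p : ℂ[X]} (hp : InS o p) (r : ℂ) : InS o (C r * p) := by
  obtain ⟨c, rfl⟩ := hp
  refine ⟨fun j => r * c j, ?_⟩
  rw [Finset.mul_sum]
  refine Finset.sum_congr rfl fun j _ => ?_
  rw [C_mul]; ring

theorem InS.gg (o : Fin 6 → ℂ) (j : Fin 5) : InS o (Pool.Agent.H286R5.gg o j) := by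
  refine ⟨Pi.single j 1, ?_⟩
  rw [Finset.sum_eq_single j]
  · rw [Pi.single_eq_same, C_1, one_mul]
  · intro i _ hi
    rw [Pi.single_eq_of_ne hi, C_0, zero_mul]
  · intro h; exact absurd (Finset.mem_univ j) h

theorem InS.of_cmul {o : Fin 6 → ℂ} {p : ℂ[X]} {r : ℂ} (hr : r ≠ 0) (hp : InS o (C r * p)) :
    InS o p := by
  have := hp.cmul r⁻¹
  rwa [← mul_assoc, ← C_mul, inv_mul_cancel₀ hr, C_1, one_mul] at this

/-- the determinant of the first elimination step -/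
def dlt (o : Fin 6 → ℂ) : ℂ :=
  o 5 ^ 5 - o 4 ^ 5 - o 2 * o 4 * o 5 ^ 3 + o 3 * o 4 ^ 3 * o 5

theorem exists_c (o : Fin 6 → ℂ) (h1 : o 1 ≠ 0) (h4 : o 4 ≠ 0) (hd : dlt o ≠ 0) :
    ∃ c : Fin 4 → Fin 5 → ℂ, ∀ s, ∑ j, C (c s j) * gg o j = X ^ (s : ℕ) := by
  have q3 : InS o (Qf o ^ 3) := by
    refine InS.of_cmul hd ?_
    have := ((InS.gg o 0).cmul (-(o 5) ^ 2)).add ((InS.gg o 1).cmul (o 4 ^ 2))
    convert this using 1
    simp only [gg, R1, R2, dlt, C_add, C_sub, C_mul, C_pow, C_neg]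
    ring
  have pq2 : InS o (Pf o * Qf o ^ 2) := by
    refine InS.of_cmul hd ?_
    have := ((InS.gg o 0).cmul (-(o 3 * o 4 * o 5 - o 4 ^ 3))).add
      ((InS.gg o 1).cmul (o 2 * o 4 * o 5 - o 5 ^ 3))
    convert this using 1
    simp only [gg, R1, R2, dlt, C_add, C_sub, C_mul, C_pow, C_neg]
    ring
  have p2q : InS o (Pf o ^ 2 * Qf o) := by
    refine InS.of_cmul h4 ?_
    have := ((pq2.cmul (o 2 * o 5)).add (q3.cmul (o 4 ^ 2 * o 5 - o 3 * o 5 ^ 2))).add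
      ((InS.gg o 2).cmul (-1))
    convert this using 1
    simp only [gg, R3, C_add, C_sub, C_mul, C_pow, C_neg, C_1]
    ring
  have p3 : InS o (Pf o ^ 3) := by
    have := ((pq2.cmul (o 2 * o 3 + o 4 * o 5)).add (q3.cmul
      (-(o 2 ^ 2 * o 4) + o 2 * o 5 ^ 2 - o 3 ^ 2 * o 5 + o 3 * o 4 ^ 2))).add
      ((InS.gg o 4).cmul (-1))
    convert this using 1
    simp only [gg, R5, C_add, C_sub, C_mul, C_pow, C_neg, C_1]
    ring
  have key : ∀ a b c d : ℂ, InS o (C a * Qf o ^ 3 + C b * (Pf o * Qf o ^ 2) +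
      C c * (Pf o ^ 2 * Qf o) + C d * Pf o ^ 3) := fun a b c d =>
    (((q3.cmul a).add (pq2.cmul b)).add (p2q.cmul c)).add (p3.cmul d)
  have hX : C (o 1 ^ 2) * X = C (o 1) * Qf o - Pf o := by
    simp only [Qf, Pf, C_add, C_pow]; ring
  have h1' : C (o 1 ^ 2) * 1 = C (o 1 ^ 2) * Qf o - C (o 0 + o 1) * (C (o 1) * Qf o - Pf o) := by
    rw [← hX]
    simp only [Qf, C_add, C_pow]; ring
  have ho : (o 1 ^ 2) ≠ 0 := pow_ne_zero _ h1
  have hfin : ∀ s : Fin 4, InS o (X ^ (s : ℕ)) := by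
    intro s
    refine InS.of_cmul (pow_ne_zero 3 ho) ?_
    match s with
    | 0 =>
      have e : C ((o 1 ^ 2) ^ 3) * X ^ ((0 : Fin 4) : ℕ) = (C (o 1 ^ 2) * 1) ^ 3 := by
        simp
      rw [e, h1']
      convert key ((o 1 ^ 2 - (o 0 + o 1) * o 1) ^ 3)
        (3 * (o 1 ^ 2 - (o 0 + o 1) * o 1) ^ 2 * (o 0 + o 1))
        (3 * (o 1 ^ 2 - (o 0 + o 1) * o 1) * (o 0 + o 1) ^ 2) ((o 0 + o 1) ^ 3) using 1
      simp only [C_add, C_sub, C_mul, C_pow, map_ofNat]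
      ring
    | 1 =>
      have e : C ((o 1 ^ 2) ^ 3) * X ^ ((1 : Fin 4) : ℕ) = (C (o 1 ^ 2) * 1) ^ 2 *
          (C (o 1 ^ 2) * X) := by
        simp only [C_pow, Fin.val_one, pow_one]; ring
      rw [e, h1', hX]
      convert key ((o 1 ^ 2 - (o 0 + o 1) * o 1) ^ 2 * o 1)
        (2 * (o 1 ^ 2 - (o 0 + o 1) * o 1) * (o 0 + o 1) * o 1 -
          (o 1 ^ 2 - (o 0 + o 1) * o 1) ^ 2)
        ((o 0 + o 1) ^ 2 * o 1 - 2 * (o 1 ^ 2 - (o 0 + o 1) * o 1) * (o 0 + o 1))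
        (-(o 0 + o 1) ^ 2) using 1
      simp only [C_add, C_sub, C_mul, C_pow, C_neg, map_ofNat]
      ring
    | 2 =>
      have e : C ((o 1 ^ 2) ^ 3) * X ^ ((2 : Fin 4) : ℕ) = (C (o 1 ^ 2) * 1) *
          (C (o 1 ^ 2) * X) ^ 2 := by
        have : ((2 : Fin 4) : ℕ) = 2 := rfl
        rw [this]
        simp only [C_pow]; ring
      rw [e, h1', hX]
      convert key ((o 1 ^ 2 - (o 0 + o 1) * o 1) * o 1 ^ 2)
        ((o 0 + o 1) * o 1 ^ 2 - 2 * (o 1 ^ 2 - (o 0 + o 1) * o 1) * o 1)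
        ((o 1 ^ 2 - (o 0 + o 1) * o 1) - 2 * (o 0 + o 1) * o 1)
        (o 0 + o 1) using 1
      simp only [C_add, C_sub, C_mul, C_pow, map_ofNat]
      ring
    | 3 =>
      have e : C ((o 1 ^ 2) ^ 3) * X ^ ((3 : Fin 4) : ℕ) = (C (o 1 ^ 2) * X) ^ 3 := by
        have : ((3 : Fin 4) : ℕ) = 3 := rfl
        rw [this]
        simp only [C_pow]; ring
      rw [e, hX]
      convert key (o 1 ^ 3) (-(3 * o 1 ^ 2)) (3 * o 1) (-1) using 1
      simp only [C_mul, C_pow, C_neg, C_1, map_ofNat]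
      ring
  choose c hc using hfin
  exact ⟨c, hc⟩

end Pool.Agent.H286R5
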