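import Mathlib
import Pool.Agent.H286R4.LefHilb
import Pool.Agent.H286R5.ZakDefs

/-!
The threefold in `ℙ^5`.
-/

namespace Pool.Agent.H286R5

open Pool.Agent.H286R4

/-- the parametrisation of the cone over the threefold; the coordinates of `ℙ^5` are
`b, a, A, B, D, E` -/
def Psi (a b x y z : ℂ) : Fin 6 → ℂ :=
  ![b * (a + b) * (x * y * z), a * (a + b) * (x * y * z), a * b * (x ^ 2 * y + z ^ 3),
    a * b * (y * z ^ 2 + x ^ 3), a * b * (x ^ 2 * z), a * b * (x * z ^ 2)]

/-- the form `f` vanishes on the parametrised set -/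
def Van (f : MvPolynomial (Fin 6) ℂ) : Prop :=
  ∀ a b x y z, MvPolynomial.eval (Psi a b x y z) f = 0

/-- the threefold: the closure of the parametrised set -/
def XZ : Set (PS (Fin 6)) :=
  {p | ∀ (m : ℕ) (f : MvPolynomial (Fin 6) ℂ), f.IsHomogeneous m → Van f →
    MvPolynomial.eval p.rep f = 0}

/-- the threefold has dimension three -/
def TaskDim : Prop := HasDim XZ 3

/-- the threefold is irreducible -/
def TaskVar : Prop := IsVariety XZ

/-- the threefold is nondegenerate -/
def TaskNondeg : Prop := Nondegenerate XZ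

/-- a form of degree at most two in `C, A, B, D, E` that vanishes along the curve
`(s^8, s^9 + 1, s^7 + s^3, s^2, s)` is zero -/
def TaskQuad : Prop :=
  ∀ (j : ℕ) (G : MvPolynomial (Fin 5) ℂ), j ≤ 2 → G.IsHomogeneous j →
    (∀ s : ℂ, s ≠ 0 → MvPolynomial.eval ![s ^ 8, s ^ 9 + 1, s ^ 7 + s ^ 3, s ^ 2, s] G = 0) →
    G = 0

end Pool.Agent.H286R5
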