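import Mathlib
import Pool.Agent.H286R5.ZakX
import Pool.Agent.H286R5.ZakIso2

/-!
The two special points lie in the triple locus.
-/

namespace Pool.Agent.H286R5

open Pool.Agent.H286R4 Polynomial

theorem aeval_mul_hom {σ S : Type} [CommRing S] [Algebra ℂ S] {p : MvPolynomial σ ℂ} {e : ℕ}
    (hp : p.IsHomogeneous e) (t : S) (w : σ → S) :
    MvPolynomial.aeval (fun j => t * w j) p = t ^ e * MvPolynomial.aeval w p := by
  rw [MvPolynomial.aeval_def, MvPolynomial.aeval_def, MvPolynomial.eval₂_eq,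
    MvPolynomial.eval₂_eq, Finset.mul_sum]
  refine Finset.sum_congr rfl fun d hd => ?_
  have h1 : d.degree = e := by
    by_contra hne
    exact MvPolynomial.mem_support_iff.mp hd (hp.coeff_eq_zero hne)
  have h2 : ∏ i ∈ d.support, (t * w i) ^ d i = t ^ e * ∏ i ∈ d.support, w i ^ d i := by
    simp only [mul_pow]
    rw [Finset.prod_mul_distrib, Finset.prod_pow_eq_pow_sum, ← h1]
    rfl
  rw [h2]
  ring

theorem aeval_cons {S : Type} [CommRing S] [Algebra ℂ S] (β : S) (w : Fin 5 → S)
    (f : MvPolynomial (Fin 6) ℂ) :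
    MvPolynomial.aeval (Fin.cons β w : Fin 6 → S) f =
      Polynomial.eval₂ (MvPolynomial.aeval w : MvPolynomial (Fin 5) ℂ →ₐ[ℂ] S).toRingHom β
        (MvPolynomial.finSuccEquiv ℂ 5 f) := by
  induction f using MvPolynomial.induction_on with
  | C a =>
    rw [MvPolynomial.finSuccEquiv_apply]
    simp
  | add p q hp hq => rw [map_add, map_add, Polynomial.eval₂_add, hp, hq]
  | mul_X p i hp =>
    rw [map_mul, map_mul, Polynomial.eval₂_mul, hp, MvPolynomial.aeval_X]
    congr 1
    refine Fin.cases ?_ (fun j => ?_) i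
    · rw [MvPolynomial.finSuccEquiv_X_zero, Polynomial.eval₂_X, Fin.cons_zero]
    · rw [MvPolynomial.finSuccEquiv_X_succ, Polynomial.eval₂_C, Fin.cons_succ]
      simp

theorem aeval_cons_hom {S : Type} [CommRing S] [Algebra ℂ S] (β t : S) (w : Fin 5 → S)
    {f : MvPolynomial (Fin 6) ℂ} {m : ℕ} (hf : f.IsHomogeneous m) :
    MvPolynomial.aeval (Fin.cons β (fun j => t * w j) : Fin 6 → S) f =
      ∑ j ∈ Finset.range (m + 1), t ^ j * (MvPolynomial.aeval w
        ((MvPolynomial.finSuccEquiv ℂ 5 f).coeff (m - j)) * β ^ (m - j)) := by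
  have hdeg : (MvPolynomial.finSuccEquiv ℂ 5 f).natDegree < m + 1 := by
    rw [MvPolynomial.natDegree_finSuccEquiv]
    exact Nat.lt_succ_of_le ((MvPolynomial.degreeOf_le_totalDegree _ _).trans hf.totalDegree_le)
  rw [aeval_cons, Polynomial.eval₂_eq_sum_range' _ hdeg, ← Finset.sum_range_reflect]
  refine Finset.sum_congr rfl fun j hj => ?_
  have hj' : j ≤ m := Nat.lt_succ_iff.mp (Finset.mem_range.mp hj)
  have h1 : m + 1 - 1 - j = m - j := by omega
  rw [h1]
  have h2 := hf.finSuccEquiv_coeff_isHomogeneous (m - j) j (by omega)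
  have h3 : (MvPolynomial.aeval (fun j => t * w j) : MvPolynomial (Fin 5) ℂ →ₐ[ℂ] S).toRingHom
      ((MvPolynomial.finSuccEquiv ℂ 5 f).coeff (m - j)) = MvPolynomial.aeval (fun j => t * w j)
        ((MvPolynomial.finSuccEquiv ℂ 5 f).coeff (m - j)) := rfl
  rw [h3, aeval_mul_hom h2]
  ring

/-- the low order coefficients at the special point vanish -/
theorem low_zero (hQ : TaskQuad) {f : MvPolynomial (Fin 6) ℂ} {m : ℕ} (hf : f.IsHomogeneous m)
    (hV : Van f) (j : ℕ) (hj : j ≤ 2) (hjm : j ≤ m) :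
    (MvPolynomial.finSuccEquiv ℂ 5 f).coeff (m - j) = 0 := by
  induction j using Nat.strong_induction_on with
  | _ j ih =>
    have h2 := hf.finSuccEquiv_coeff_isHomogeneous (m - j) j (by omega)
    refine hQ j _ hj h2 fun s hs => ?_
    set c : ℂ := s ^ 8 with hc
    have hc0 : c ≠ 0 := pow_ne_zero _ hs
    set w : Fin 5 → ℂ[X] := ![C c * (1 + X), C (s ^ 9 + 1), C (s ^ 7 + s ^ 3), C (s ^ 2), C s]
      with hw
    have h3 : MvPolynomial.aeval (Fin.cons (C c * (1 + X)) (fun j => X * w j) : Fin 6 → ℂ[X]) f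
        = 0 := by
      refine Polynomial.funext fun t => ?_
      rw [Polynomial.eval_zero]
      have h4 := hV t 1 s (s ^ 7) 1
      rw [← h4]
      have h5 : Polynomial.eval t (MvPolynomial.aeval
          (Fin.cons (C c * (1 + X)) (fun j => X * w j) : Fin 6 → ℂ[X]) f) =
          MvPolynomial.aeval (fun i => Polynomial.eval t
            ((Fin.cons (C c * (1 + X)) (fun j => X * w j) : Fin 6 → ℂ[X]) i)) f := by
        have := MvPolynomial.comp_aeval_apply
          (Fin.cons (C c * (1 + X)) (fun j => X * w j) : Fin 6 → ℂ[X])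
          (Polynomial.aeval t : ℂ[X] →ₐ[ℂ] ℂ) f
        simp only [Polynomial.coe_aeval_eq_eval] at this
        exact this
      rw [h5]
      have h6 : (fun i => Polynomial.eval t
          ((Fin.cons (C c * (1 + X)) (fun j => X * w j) : Fin 6 → ℂ[X]) i)) =
          Psi t 1 s (s ^ 7) 1 := by
        funext i
        match i with
        | 0 =>
          change Polynomial.eval t (C c * (1 + X)) = 1 * (t + 1) * (s * s ^ 7 * 1)
          rw [hc]
          simp only [eval_mul, eval_C, eval_add, eval_one, eval_X]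
          ring
        | 1 =>
          change Polynomial.eval t (X * (C c * (1 + X))) = t * (t + 1) * (s * s ^ 7 * 1)
          rw [hc]
          simp only [eval_mul, eval_C, eval_add, eval_one, eval_X]
          ring
        | 2 =>
          change Polynomial.eval t (X * C (s ^ 9 + 1)) = t * 1 * (s ^ 2 * s ^ 7 + 1 ^ 3)
          simp only [eval_mul, eval_C, eval_add, eval_one, eval_X]
          ring
        | 3 =>
          change Polynomial.eval t (X * C (s ^ 7 + s ^ 3)) = t * 1 * (s ^ 7 * 1 ^ 2 + s ^ 3)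
          simp only [eval_mul, eval_C, eval_add, eval_one, eval_X]
          ring
        | 4 =>
          change Polynomial.eval t (X * C (s ^ 2)) = t * 1 * (s ^ 2 * 1)
          simp only [eval_mul, eval_C, eval_add, eval_one, eval_X]
          ring
        | 5 =>
          change Polynomial.eval t (X * C s) = t * 1 * (s * 1 ^ 2)
          simp only [eval_mul, eval_C, eval_add, eval_one, eval_X]
          ring
      rw [h6]
      rfl
    rw [aeval_cons_hom _ _ _ hf] at h3
    have h6 : (X : ℂ[X]) ^ (j + 1) ∣ X ^ j * (MvPolynomial.aeval w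
        ((MvPolynomial.finSuccEquiv ℂ 5 f).coeff (m - j)) * (C c * (1 + X)) ^ (m - j)) := by
      rw [← Finset.sum_erase_add _ _ (Finset.mem_range.mpr (show j < m + 1 by omega))] at h3
      have h7 := eq_neg_of_add_eq_zero_right h3
      rw [h7, dvd_neg]
      refine Finset.dvd_sum fun i hi => ?_
      obtain ⟨hij, hi⟩ := Finset.mem_erase.mp hi
      rcases lt_or_gt_of_ne hij with h | h
      · rw [ih i h (by omega) (by omega)]
        simp
      · exact (pow_dvd_pow _ h).mul_right _
    rw [pow_succ, mul_dvd_mul_iff_left (pow_ne_zero _ X_ne_zero), Polynomial.X_dvd_iff,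
      Polynomial.coeff_zero_eq_eval_zero, Polynomial.eval_mul, Polynomial.eval_pow] at h6
    have h8 : Polynomial.eval 0 (C c * (1 + X)) = c := by simp
    rw [h8] at h6
    have h9 := (mul_eq_zero.mp h6).resolve_right (pow_ne_zero _ hc0)
    have h10 := MvPolynomial.comp_aeval_apply w (Polynomial.aeval 0 : ℂ[X] →ₐ[ℂ] ℂ)
      ((MvPolynomial.finSuccEquiv ℂ 5 f).coeff (m - j))
    simp only [Polynomial.coe_aeval_eq_eval] at h10
    have h11 : (fun i => Polynomial.eval 0 (w i)) =
        ![s ^ 8, s ^ 9 + 1, s ^ 7 + s ^ 3, s ^ 2, s] := by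
      funext i
      match i with
      | 0 =>
        change Polynomial.eval 0 (C c * (1 + X)) = s ^ 8
        rw [hc]
        simp only [eval_mul, eval_C, eval_add, eval_one, eval_X, add_zero, mul_one]
      | 1 => exact Polynomial.eval_C
      | 2 => exact Polynomial.eval_C
      | 3 => exact Polynomial.eval_C
      | 4 => exact Polynomial.eval_C
    rw [h10, h11] at h9
    exact h9

theorem cube_dvd (hQ : TaskQuad) (o : Fin 6 → ℂ) {f : MvPolynomial (Fin 6) ℂ} {m : ℕ}
    (hf : f.IsHomogeneous m) (hV : Van f) :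
    (MvPolynomial.X 1 : MvPolynomial (Fin 2) ℂ) ^ 3 ∣ lineRes o y0 f := by
  have h1 : lineRes o y0 f = MvPolynomial.aeval
      (Fin.cons (MvPolynomial.X 0 + MvPolynomial.C (o 0) * MvPolynomial.X 1)
        (fun j : Fin 5 => (MvPolynomial.X 1 : MvPolynomial (Fin 2) ℂ) *
          MvPolynomial.C (o j.succ)) : Fin 6 → MvPolynomial (Fin 2) ℂ) f := by
    rw [lineRes]
    congr 1
    congr 1
    funext i
    refine Fin.cases ?_ (fun j => ?_) i
    · simp [y0]
    · simp [y0, Fin.succ_ne_zero, mul_comm]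
  rw [h1, aeval_cons_hom _ _ _ hf]
  refine Finset.dvd_sum fun j hj => ?_
  by_cases h : 3 ≤ j
  · exact (pow_dvd_pow _ h).mul_right _
  · rw [low_zero hQ hf hV j (by omega) (by have := Finset.mem_range.mp hj; omega)]
    simp

/-- the second special point -/
noncomputable def y1 : Fin 6 → ℂ := Pi.single 1 1

theorem cube_dvd' (hQ : TaskQuad) (o : Fin 6 → ℂ) {f : MvPolynomial (Fin 6) ℂ} {m : ℕ}
    (hf : f.IsHomogeneous m) (hV : Van f) :
    (MvPolynomial.X 1 : MvPolynomial (Fin 2) ℂ) ^ 3 ∣ lineRes o y1 f := by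
  have h0 : (MvPolynomial.rename (Equiv.swap (0 : Fin 6) 1) f).IsHomogeneous m :=
    hf.rename_isHomogeneous
  have hV' : Van (MvPolynomial.rename (Equiv.swap (0 : Fin 6) 1) f) := by
    intro a b x y z
    have h1 : Psi a b x y z ∘ Equiv.swap (0 : Fin 6) 1 = Psi b a x y z := by
      funext i
      match i with
      | 0 =>
        change a * (a + b) * (x * y * z) = a * (b + a) * (x * y * z)
        ring
      | 1 =>
        change b * (a + b) * (x * y * z) = b * (b + a) * (x * y * z)
        ring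
      | 2 =>
        change a * b * (x ^ 2 * y + z ^ 3) = b * a * (x ^ 2 * y + z ^ 3)
        ring
      | 3 =>
        change a * b * (y * z ^ 2 + x ^ 3) = b * a * (y * z ^ 2 + x ^ 3)
        ring
      | 4 =>
        change a * b * (x ^ 2 * z) = b * a * (x ^ 2 * z)
        ring
      | 5 =>
        change a * b * (x * z ^ 2) = b * a * (x * z ^ 2)
        ring
    rw [MvPolynomial.eval_rename, h1]
    exact hV b a x y z
  have h1 := cube_dvd hQ (o ∘ Equiv.swap (0 : Fin 6) 1) h0 hV'
  have h2 : lineRes (o ∘ Equiv.swap (0 : Fin 6) 1) y0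
      (MvPolynomial.rename (Equiv.swap (0 : Fin 6) 1) f) = lineRes o y1 f := by
    have h3 : (fun i => MvPolynomial.C (y0 i) * MvPolynomial.X 0 +
        MvPolynomial.C ((o ∘ Equiv.swap (0 : Fin 6) 1) i) * MvPolynomial.X 1 :
          Fin 6 → MvPolynomial (Fin 2) ℂ) ∘ Equiv.swap (0 : Fin 6) 1 =
        fun i => MvPolynomial.C (y1 i) * MvPolynomial.X 0 +
          MvPolynomial.C (o i) * MvPolynomial.X 1 := by
      funext i
      have h4 : y0 (Equiv.swap (0 : Fin 6) 1 i) = y1 i := by
        rw [y0, y1, Pi.single_apply, Pi.single_apply]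
        congr 1
        rw [Equiv.swap_apply_eq_iff, Equiv.swap_apply_left]
      simp only [Function.comp_apply, h4, Equiv.swap_apply_self]
    rw [lineRes, lineRes, MvPolynomial.aeval_rename, h3]
  rwa [h2] at h1

theorem base_ne : Psi 1 1 1 1 1 ≠ 0 := by
  intro h
  have := congrFun h 0
  norm_num [Psi] at this

theorem mk_mem_XZ {a b x y z : ℂ} (h : Psi a b x y z ≠ 0) : Projectivization.mk ℂ _ h ∈ XZ :=
  fun _ _ hf hV => (eval_rep_mk hf _ h).mpr (hV a b x y z)

theorem van_of_XZ {f : MvPolynomial (Fin 6) ℂ} {m : ℕ} (hf : f.IsHomogeneous m)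
    (h : ∀ p ∈ XZ, MvPolynomial.eval p.rep f = 0) : Van f := by
  have key : ∀ {a b x y z}, Psi a b x y z ≠ 0 → MvPolynomial.eval (Psi a b x y z) f = 0 :=
    fun h' => (eval_rep_mk hf _ h').mp (h _ (mk_mem_XZ h'))
  intro a b x y z
  by_cases h0 : Psi a b x y z = 0
  · have h1 := hom_eval hf (Psi 1 1 1 1 1) 0
    rw [zero_smul, key base_ne, mul_zero] at h1
    rw [h0, h1]
  · exact key h0

theorem mem0 (hQ : TaskQuad) (o : Fin 6 → ℂ) : FibDegGE XZ o y0 3 :=
  ⟨MvPolynomial.X 1 ^ 3, MvPolynomial.isHomogeneous_X_pow _ _, pow_ne_zero _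
    (MvPolynomial.X_ne_zero _), fun _ _ hf h => cube_dvd hQ o hf (van_of_XZ hf h)⟩

theorem mem1 (hQ : TaskQuad) (o : Fin 6 → ℂ) : FibDegGE XZ o y1 3 :=
  ⟨MvPolynomial.X 1 ^ 3, MvPolynomial.isHomogeneous_X_pow _ _, pow_ne_zero _
    (MvPolynomial.X_ne_zero _), fun _ _ hf h => cube_dvd' hQ o hf (van_of_XZ hf h)⟩

end Pool.Agent.H286R5
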