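import Mathlib
import Pool.Agent.H286R5.ZakLow

/-!
From the fibre degree to a common divisor of the sextics, and vanishing of the elimination
polynomial on the triple locus.
-/

namespace Pool.Agent.H286R5

open Pool.Agent.H286R4 Polynomial

/-- the sextics as forms -/
noncomputable def FP (j : Fin 5) : MvPolynomial (Fin 6) ℂ := G j (fun i => MvPolynomial.X i)

theorem eval_FP (j : Fin 5) (v : Fin 6 → ℂ) : MvPolynomial.eval v (FP j) = G j v := by
  have := map_G (MvPolynomial.eval v) j (fun i => (MvPolynomial.X i : MvPolynomial (Fin 6) ℂ))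
  rw [FP, this]
  simp only [MvPolynomial.eval_X]

theorem G_Psi (j : Fin 5) (a b x y z : ℂ) : G j (Psi a b x y z) = 0 := by
  have e0 : Psi a b x y z 0 = b * (a + b) * (x * y * z) := rfl
  have e1 : Psi a b x y z 1 = a * (a + b) * (x * y * z) := rfl
  have e2 : Psi a b x y z 2 = a * b * (x ^ 2 * y + z ^ 3) := rfl
  have e3 : Psi a b x y z 3 = a * b * (y * z ^ 2 + x ^ 3) := rfl
  have e4 : Psi a b x y z 4 = a * b * (x ^ 2 * z) := rfl
  have e5 : Psi a b x y z 5 = a * b * (x * z ^ 2) := rfl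
  match j with
  | 0 => simp only [G, R1, e0, e1, e2, e3, e4, e5]; ring
  | 1 => simp only [G, R2, e0, e1, e2, e3, e4, e5]; ring
  | 2 => simp only [G, R3, e0, e1, e2, e3, e4, e5]; ring
  | 3 => simp only [G, R4, e0, e1, e2, e3, e4, e5]; ring
  | 4 => simp only [G, R5, e0, e1, e2, e3, e4, e5]; ring

theorem FP_van (j : Fin 5) : ∀ p ∈ XZ, MvPolynomial.eval p.rep (FP j) = 0 := fun _ hp =>
  hp 6 (FP j) (G_hom j) fun a b x y z => by rw [eval_FP, G_Psi]

/-- dehomogenisation -/
noncomputable def dh : MvPolynomial (Fin 2) ℂ →ₐ[ℂ] ℂ[X] := MvPolynomial.aeval ![1, X]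

theorem dh_lineRes (o y : Fin 6 → ℂ) (f : MvPolynomial (Fin 6) ℂ) :
    dh (lineRes o y f) = MvPolynomial.aeval (vh o y) f := by
  rw [lineRes, MvPolynomial.comp_aeval_apply]
  congr 1
  congr 1
  funext i
  simp only [dh, map_add, map_mul, MvPolynomial.aeval_X, MvPolynomial.aeval_C, vh]
  change C (y i) * 1 + C (o i) * X = _
  rw [mul_one]

theorem eval_lineRes (o y : Fin 6 → ℂ) (f : MvPolynomial (Fin 6) ℂ) :
    MvPolynomial.eval ![0, 1] (lineRes o y f) = MvPolynomial.eval o f := by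
  have h := MvPolynomial.comp_aeval_apply (fun i => MvPolynomial.C (y i) * MvPolynomial.X 0 +
    MvPolynomial.C (o i) * MvPolynomial.X 1 : Fin 6 → MvPolynomial (Fin 2) ℂ)
    (MvPolynomial.aeval (![0, 1] : Fin 2 → ℂ)) f
  have h2 : (fun i => MvPolynomial.aeval (![0, 1] : Fin 2 → ℂ) ((fun i => MvPolynomial.C (y i) *
      MvPolynomial.X 0 + MvPolynomial.C (o i) * MvPolynomial.X 1 :
        Fin 6 → MvPolynomial (Fin 2) ℂ) i)) = o := by
    funext i
    simp only [map_add, map_mul, MvPolynomial.aeval_X, MvPolynomial.aeval_C]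
    change y i * 0 + o i * 1 = o i
    ring
  rw [h2] at h
  exact h

theorem dh_eq (q : MvPolynomial (Fin 2) ℂ) :
    dh q = ∑ d ∈ q.support, C (q.coeff d) * X ^ (d 1) := by
  rw [dh, MvPolynomial.aeval_def, MvPolynomial.eval₂_eq']
  refine Finset.sum_congr rfl fun d _ => ?_
  rw [Fin.prod_univ_two]
  change C (q.coeff d) * (1 ^ d 0 * X ^ d 1) = _
  rw [one_pow, one_mul]

theorem deg_two {d : Fin 2 →₀ ℕ} {k : ℕ} (h : d.degree = k) : d 0 + d 1 = k := by
  rw [← h, Finsupp.degree_eq_sum, Fin.sum_univ_two]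

theorem dh_coeff {q : MvPolynomial (Fin 2) ℂ} {k : ℕ} (hq : q.IsHomogeneous k) :
    (dh q).coeff k = MvPolynomial.eval ![0, 1] q := by
  rw [dh_eq, Polynomial.finsetSum_coeff, MvPolynomial.eval_eq']
  refine Finset.sum_congr rfl fun d hd => ?_
  have h1 : d.degree = k := by
    by_contra hne
    exact MvPolynomial.mem_support_iff.mp hd (hq.coeff_eq_zero hne)
  have h2 := deg_two h1
  rw [Fin.prod_univ_two, Polynomial.coeff_C_mul, Polynomial.coeff_X_pow]
  change _ = q.coeff d * (0 ^ d 0 * 1 ^ d 1)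
  rw [one_pow, mul_one]
  congr 1
  by_cases h : d 0 = 0
  · rw [if_pos (by omega), h, pow_zero]
  · rw [if_neg (by omega), zero_pow h]

theorem dh_natDegree {q : MvPolynomial (Fin 2) ℂ} {k : ℕ} (hq : q.IsHomogeneous k)
    (h0 : MvPolynomial.eval ![0, 1] q ≠ 0) : (dh q).natDegree = k := by
  refine le_antisymm ?_ ?_
  · rw [dh_eq]
    refine Polynomial.natDegree_sum_le_of_forall_le _ _ fun d hd => ?_
    have h1 : d.degree = k := by
      by_contra hne
      exact MvPolynomial.mem_support_iff.mp hd (hq.coeff_eq_zero hne)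
    have h2 := deg_two h1
    refine (Polynomial.natDegree_C_mul_le _ _).trans ?_
    rw [Polynomial.natDegree_X_pow]
    omega
  · refine Polynomial.le_natDegree_of_ne_zero ?_
    rw [dh_coeff hq]
    exact h0

/-- the common divisor -/
theorem exists_divisor {o y : Fin 6 → ℂ} (hG0 : G 0 o ≠ 0) {k : ℕ} (h : FibDegGE XZ o y k) :
    ∃ q : ℂ[X], q.natDegree = k ∧ ∀ j, q ∣ G j (vh o y) := by
  obtain ⟨q, hq, -, hdiv⟩ := h
  refine ⟨dh q, dh_natDegree hq ?_, fun j => ?_⟩
  · intro h0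
    obtain ⟨r, hr⟩ := hdiv 6 (FP 0) (G_hom 0) (FP_van 0)
    have h1 := congrArg (MvPolynomial.eval (![0, 1] : Fin 2 → ℂ)) hr
    rw [eval_lineRes, eval_FP, map_mul, h0, zero_mul] at h1
    exact hG0 h1
  · have h1 := map_dvd dh (hdiv 6 (FP j) (G_hom j) (FP_van j))
    rw [dh_lineRes] at h1
    rw [G_aeval]
    exact h1

/-- the determinant vanishes on the triple locus away from the special point -/
theorem det_zero_of_fib (c : Fin 4 → Fin 5 → ℂ) {o y : Fin 6 → ℂ} (hG0 : G 0 o ≠ 0)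
    (ho1 : o 1 ≠ 0) (hy1 : y 1 = 0) (hy0 : y 0 ≠ 0) (hyi : ∃ i : Fin 6, i ≠ 0 ∧ i ≠ 1 ∧ y i ≠ 0)
    (hd : o 4 * y 0 - o 0 * y 4 ≠ 0) (h : FibDegGE XZ o y 3) : (Mat c o y).det = 0 := by
  obtain ⟨q, hq, hdiv⟩ := exists_divisor hG0 h
  refine det_zero c o y q hq hdiv (sq_dvd_GD (vh o y) hdiv ?_ ?_ ?_)
  · refine coprime_of_const (a := C (o 1)) (b := -C (o 0)) (c := o 1 * y 0)
      (mul_ne_zero ho1 hy0) ?_
    simp only [vh, hy1, C_mul, C_0]
    ring
  · obtain ⟨i, hi0, hi1, hi⟩ := hyi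
    refine ⟨i, hi0, hi1, coprime_of_const (a := -C (o i)) (b := C (o 1)) (c := o 1 * y i)
      (mul_ne_zero ho1 hi) ?_⟩
    simp only [vh, hy1, C_mul, C_0]
    ring
  · refine coprime_of_const (a := C (o 4)) (b := -C (o 0)) (c := o 4 * y 0 - o 0 * y 4) hd ?_
    simp only [vh, C_mul, C_sub]
    ring

/-- a polynomial that vanishes on all multiples of a vector has vanishing components there -/
theorem comp_zero {τ : Type} (F : MvPolynomial τ ℂ) (v : τ → ℂ)
    (h : ∀ t : ℂ, t ≠ 0 → MvPolynomial.eval (t • v) F = 0) (k : ℕ) :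
    MvPolynomial.eval v (MvPolynomial.homogeneousComponent k F) = 0 := by
  set P : ℂ[X] := ∑ i ∈ Finset.range (F.totalDegree + 1),
    C (MvPolynomial.eval v (MvPolynomial.homogeneousComponent i F)) * X ^ i with hP
  have h1 : ∀ t : ℂ, P.eval t = MvPolynomial.eval (t • v) F := by
    intro t
    conv_rhs => rw [← MvPolynomial.sum_homogeneousComponent F]
    rw [map_sum, hP, Polynomial.eval_finset_sum]
    refine Finset.sum_congr rfl fun i _ => ?_
    rw [hom_eval (MvPolynomial.homogeneousComponent_isHomogeneous i F)]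
    simp only [eval_mul, eval_C, eval_pow, eval_X]
    ring
  have h2 : X * P = 0 := by
    refine Polynomial.funext fun t => ?_
    rw [eval_mul, eval_X, eval_zero, h1]
    by_cases ht : t = 0
    · rw [ht, zero_mul]
    · rw [h t ht, mul_zero]
  have h3 : P = 0 := (mul_eq_zero.mp h2).resolve_left X_ne_zero
  by_cases hk : k < F.totalDegree + 1
  · have h4 := congrArg (fun p : ℂ[X] => p.coeff k) h3
    simp only [hP, Polynomial.finsetSum_coeff, Polynomial.coeff_C_mul, Polynomial.coeff_X_pow,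
      Polynomial.coeff_zero, mul_ite, mul_one, mul_zero] at h4
    rw [Finset.sum_ite_eq, if_pos (Finset.mem_range.mpr hk)] at h4
    exact h4
  · rw [MvPolynomial.homogeneousComponent_eq_zero _ _ (by omega), map_zero]

theorem exists_comp {τ : Type} (F : MvPolynomial τ ℂ) (v : τ → ℂ)
    (h : MvPolynomial.eval v F ≠ 0) :
    ∃ k, MvPolynomial.eval v (MvPolynomial.homogeneousComponent k F) ≠ 0 := by
  by_contra hne
  push Not at hne
  apply h
  rw [← MvPolynomial.sum_homogeneousComponent F, map_sum]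
  exact Finset.sum_eq_zero fun i _ => hne i

end Pool.Agent.H286R5
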