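import Mathlib
import Pool.Agent.H286R5.ZakFib
import Pool.Agent.H343R3.Zak.ZakDim
import Pool.Agent.H944R3.ZakQuad
import Pool.Agent.H82R3.ZakNon

/-!
The triple locus of the general projection of the threefold is disconnected.
-/

namespace Pool.Agent.H286R5

open Pool.Agent.H286R4 Module

/-- invariance of the fibre degree under a change of the point on the line -/
def CongX : Prop := ∀ (o y : Fin 6 → ℂ) (t c : ℂ), t ≠ 0 → FibDegGE XZ o y 3 →
  FibDegGE XZ o (t • y + c • o) 3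

theorem ker_line (L : (Fin 6 → ℂ) →ₗ[ℂ] (Fin 5 → ℂ)) (hL : Function.Surjective L)
    {o : Fin 6 → ℂ} (ho : o ≠ 0) (hLo : L o = 0) (y : Fin 6 → ℂ) (hy : L y = 0) :
    ∃ c : ℂ, y = c • o := by
  have h1 := LinearMap.finrank_range_add_finrank_ker L
  rw [LinearMap.range_eq_top.mpr hL, finrank_top, finrank_fin_fun, finrank_fin_fun] at h1
  have h2 : finrank ℂ (LinearMap.ker L) = 1 := by omega
  have h3 := (finrank_eq_one_iff_of_nonzero' (⟨o, hLo⟩ : LinearMap.ker L)
    (by intro h; exact ho (congrArg Subtype.val h))).mp h2 ⟨y, hy⟩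
  obtain ⟨c, hc⟩ := h3
  exact ⟨c, (congrArg Subtype.val hc).symm⟩

/-- a section of the projection with image in the hyperplane `X₁ = 0` -/
theorem exists_section (L : (Fin 6 → ℂ) →ₗ[ℂ] (Fin 5 → ℂ)) (hL : Function.Surjective L)
    {o : Fin 6 → ℂ} (ho1 : o 1 ≠ 0) (hLo : L o = 0) :
    ∃ s : (Fin 5 → ℂ) →ₗ[ℂ] (Fin 6 → ℂ), (∀ z, L (s z) = z) ∧ ∀ z, s z 1 = 0 := by
  obtain ⟨g, hg⟩ := L.exists_rightInverse_of_surjective (LinearMap.range_eq_top.mpr hL)
  refine ⟨g - ((LinearMap.proj 1 : (Fin 6 → ℂ) →ₗ[ℂ] ℂ).comp g).smulRight ((o 1)⁻¹ • o),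
    fun z => ?_, fun z => ?_⟩
  · rw [LinearMap.sub_apply, LinearMap.smulRight_apply, map_sub, map_smul, map_smul, hLo,
      smul_zero, smul_zero, sub_zero]
    exact LinearMap.congr_fun hg z
  · rw [LinearMap.sub_apply, LinearMap.smulRight_apply, Pi.sub_apply, Pi.smul_apply,
      Pi.smul_apply]
    change g z 1 - g z 1 * ((o 1)⁻¹ * o 1) = 0
    rw [inv_mul_cancel₀ ho1, mul_one, sub_self]

/-- a one point set is closed -/
theorem closed_point {τ : Type} (w : τ → ℂ) (hw : w ≠ 0) :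
    IsZClosed ({Projectivization.mk ℂ w hw} : Set (PS τ)) := by
  refine ⟨{f | ∃ i j, f = MvPolynomial.C (w j) * MvPolynomial.X i -
    MvPolynomial.C (w i) * MvPolynomial.X j}, ?_, ?_⟩
  · rintro f ⟨i, j, rfl⟩
    refine ⟨1, ?_⟩
    have h : ∀ (a : ℂ) (i : τ), (MvPolynomial.C a * MvPolynomial.X i :
        MvPolynomial τ ℂ).IsHomogeneous 1 := by
      intro a i
      have := (MvPolynomial.isHomogeneous_C τ a).mul (MvPolynomial.isHomogeneous_X ℂ i)
      rwa [zero_add] at this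
    exact (h _ _).sub (h _ _)
  · ext p
    simp only [Set.mem_singleton_iff, Set.mem_setOf_eq]
    obtain ⟨j, hj⟩ := Function.ne_iff.mp hw
    rw [Pi.zero_apply] at hj
    constructor
    · rintro rfl f ⟨a, b, rfl⟩
      obtain ⟨c, hc, h⟩ := rep_mk w hw
      rw [h]
      simp only [map_sub, map_mul, MvPolynomial.eval_C, MvPolynomial.eval_X, Pi.smul_apply,
        smul_eq_mul]
      ring
    · intro h
      have h1 : p.rep = (p.rep j / w j) • w := by
        funext i
        have := h _ ⟨i, j, rfl⟩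
        simp only [map_sub, map_mul, MvPolynomial.eval_C, MvPolynomial.eval_X] at this
        rw [Pi.smul_apply, smul_eq_mul]
        field_simp
        linear_combination this
      rw [← p.mk_rep]
      refine (Projectivization.mk_eq_mk_iff' ℂ _ _ _ _).mpr ⟨p.rep j / w j, h1.symm⟩

/-- the composition of a form with a linear map -/
noncomputable def comL (s : (Fin 5 → ℂ) →ₗ[ℂ] (Fin 6 → ℂ)) (F : MvPolynomial (Fin 6) ℂ) :
    MvPolynomial (Fin 5) ℂ :=
  MvPolynomial.aeval (fun i => ∑ j, MvPolynomial.C (s (Pi.single j 1) i) * MvPolynomial.X j) F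

theorem eval_comL (s : (Fin 5 → ℂ) →ₗ[ℂ] (Fin 6 → ℂ)) (F : MvPolynomial (Fin 6) ℂ)
    (z : Fin 5 → ℂ) : MvPolynomial.eval z (comL s F) = MvPolynomial.eval (s z) F := by
  have h := MvPolynomial.comp_aeval_apply (fun i => ∑ j, MvPolynomial.C (s (Pi.single j 1) i) *
    MvPolynomial.X j : Fin 6 → MvPolynomial (Fin 5) ℂ) (MvPolynomial.aeval z) F
  have h2 : (fun i => MvPolynomial.aeval z (∑ j, MvPolynomial.C (s (Pi.single j 1) i) *
      MvPolynomial.X j : MvPolynomial (Fin 5) ℂ)) = s z := by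
    funext i
    have h3 : s z = ∑ j, z j • s (Pi.single j 1) := by
      rw [LinearMap.pi_apply_eq_sum_univ s z]
      refine Finset.sum_congr rfl fun j _ => ?_
      congr 2
      funext l
      rw [Pi.single_apply]
      by_cases h : j = l
      · rw [if_pos h, if_pos h.symm]
      · rw [if_neg h, if_neg (Ne.symm h)]
    rw [h3, Finset.sum_apply, map_sum]
    refine Finset.sum_congr rfl fun j _ => ?_
    rw [map_mul, MvPolynomial.aeval_C, MvPolynomial.aeval_X, Pi.smul_apply, smul_eq_mul, mul_comm]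
    rfl
  rw [h2] at h
  exact h

/-- the triple locus is disconnected -/
theorem disconnected (hcong : CongX) (o : Fin 6 → ℂ) (h1 : o 1 ≠ 0) (h4 : o 4 ≠ 0)
    (hd : dlt o ≠ 0) (hD : Dl (o 2) (o 3) (o 1) (o 4) (o 5) ≠ 0) (hG0 : G 0 o ≠ 0)
    (L : (Fin 6 → ℂ) →ₗ[ℂ] (Fin 5 → ℂ)) (hL : Function.Surjective L) (hLo : L o = 0) :
    ¬ IsZConnected (kLocus XZ o L 3) := by
  have ho : o ≠ 0 := by
    rintro rfl
    exact h1 rfl
  have hQ := Pool.Agent.H944R3.ZakQuad.taskQuad
  have hsmul : ∀ (t : ℂ) (y : Fin 6 → ℂ), t ≠ 0 → FibDegGE XZ o y 3 →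
      FibDegGE XZ o (t • y) 3 := by
    intro t y ht h
    have := hcong o y t 0 ht h
    rwa [zero_smul, add_zero] at this
  obtain ⟨c, hc⟩ := exists_c o h1 h4 hd
  obtain ⟨s, hs, hs1⟩ := exists_section L hL h1 hLo
  have e00 : y0 0 = 1 := by simp [y0]
  have e01 : y0 1 = 0 := by simp [y0]
  have e04 : y0 4 = 0 := by simp [y0]
  have e10 : y1 0 = 0 := by simp [y1]
  have e14 : y1 4 = 0 := by simp [y1]
  have e11 : y1 1 = 1 := by simp [y1]
  have hw0 : L y0 ≠ 0 := by
    intro h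
    obtain ⟨r, hr⟩ := ker_line L hL ho hLo y0 h
    have a4 := congrFun hr 4
    rw [e04, Pi.smul_apply, smul_eq_mul, eq_comm, mul_eq_zero, or_iff_left h4] at a4
    have a0 := congrFun hr 0
    rw [e00, a4, zero_smul] at a0
    exact one_ne_zero a0
  have hw1 : L y1 ≠ 0 := by
    intro h
    obtain ⟨r, hr⟩ := ker_line L hL ho hLo y1 h
    have a4 := congrFun hr 4
    rw [e14, Pi.smul_apply, smul_eq_mul, eq_comm, mul_eq_zero, or_iff_left h4] at a4
    have a1 := congrFun hr 1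
    rw [e11, a4, zero_smul] at a1
    exact one_ne_zero a1
  set z0 := Projectivization.mk ℂ (L y0) hw0 with hz0
  set z1 := Projectivization.mk ℂ (L y1) hw1 with hz1
  have hz : z1 ≠ z0 := by
    intro h
    obtain ⟨a, ha⟩ := (Projectivization.mk_eq_mk_iff' ℂ _ _ _ _).mp h
    have h5 : L (a • y0 - y1) = 0 := by
      rw [map_sub, map_smul, ha, sub_self]
    obtain ⟨r, hr⟩ := ker_line L hL ho hLo _ h5
    have a4 := congrFun hr 4
    rw [Pi.sub_apply, Pi.smul_apply, e04, e14, smul_zero, sub_zero, Pi.smul_apply, smul_eq_mul,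
      eq_comm, mul_eq_zero, or_iff_left h4] at a4
    have a1 := congrFun hr 1
    rw [Pi.sub_apply, Pi.smul_apply, e01, e11, a4, zero_smul, smul_zero, zero_sub] at a1
    exact one_ne_zero (neg_eq_zero.mp a1)
  have m0 : z0 ∈ kLocus XZ o L 3 := by
    obtain ⟨t, ht, h⟩ := rep_mk (L y0) hw0
    refine ⟨t • y0, ?_, hsmul t y0 ht (mem0 hQ o)⟩
    rw [map_smul, h]
  have m1 : z1 ∈ kLocus XZ o L 3 := by
    obtain ⟨t, ht, h⟩ := rep_mk (L y1) hw1
    refine ⟨t • y1, ?_, hsmul t y1 ht (mem1 hQ o)⟩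
    rw [map_smul, h]
  -- the elimination form
  set H : MvPolynomial (Fin 6) ℂ := hpol c o * MvPolynomial.X 0 *
    (MvPolynomial.C (o 4) * MvPolynomial.X 0 - MvPolynomial.C (o 0) * MvPolynomial.X 4) with hH
  have hHe : ∀ y : Fin 6 → ℂ, MvPolynomial.eval y H =
      (Mat c o y).det * y 0 * (o 4 * y 0 - o 0 * y 4) := by
    intro y
    rw [hH, map_mul, map_mul, eval_hpol]
    simp only [map_sub, map_mul, MvPolynomial.eval_C, MvPolynomial.eval_X]
  have hs0 : s (L y0) = y0 := by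
    have h5 : L (s (L y0) - y0) = 0 := by rw [map_sub, hs, sub_self]
    obtain ⟨r, hr⟩ := ker_line L hL ho hLo _ h5
    have a1 := congrFun hr 1
    rw [Pi.sub_apply, hs1, e01, sub_zero, Pi.smul_apply, smul_eq_mul, eq_comm, mul_eq_zero,
      or_iff_left h1] at a1
    rw [a1, zero_smul] at hr
    exact sub_eq_zero.mp hr
  have hne : MvPolynomial.eval (L y0) (comL s H) ≠ 0 := by
    rw [eval_comL, hs0, hHe, det_y0 c o hc, e00, e04, mul_one, mul_one, mul_zero, sub_zero]
    exact mul_ne_zero hD h4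
  obtain ⟨k, hk⟩ := exists_comp _ _ hne
  set H' := MvPolynomial.homogeneousComponent k (comL s H) with hH'
  have hH'h : H'.IsHomogeneous k := MvPolynomial.homogeneousComponent_isHomogeneous _ _
  have hvan : ∀ z ∈ kLocus XZ o L 3, z ≠ z0 → MvPolynomial.eval z.rep H' = 0 := by
    intro z hz hzne
    refine comp_zero _ _ (fun t ht => ?_) k
    rw [eval_comL, hHe]
    set y := s (t • z.rep) with hy
    have hy1 : y 1 = 0 := hs1 _
    have hLy : L y = t • z.rep := hs _
    have hfib : FibDegGE XZ o y 3 := by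
      obtain ⟨y', hy', hf⟩ := hz
      have h5 : L (y - t • y') = 0 := by rw [map_sub, hLy, map_smul, hy', sub_self]
      obtain ⟨r, hr⟩ := ker_line L hL ho hLo _ h5
      have h6 : y = t • y' + r • o := by rw [← hr]; abel
      rw [h6]
      exact hcong o y' t r ht hf
    by_cases hy0 : y 0 = 0
    · rw [hy0, mul_zero, zero_mul]
    by_cases hd4 : o 4 * y 0 - o 0 * y 4 = 0
    · rw [hd4, mul_zero]
    by_cases hyi : ∃ i : Fin 6, i ≠ 0 ∧ i ≠ 1 ∧ y i ≠ 0
    · rw [det_zero_of_fib c hG0 h1 hy1 hy0 hyi hd4 hfib, zero_mul, zero_mul]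
    · exfalso
      push Not at hyi
      have h7 : y = y 0 • y0 := by
        funext i
        by_cases hi0 : i = 0
        · rw [hi0, Pi.smul_apply, e00, smul_eq_mul, mul_one]
        · have h8 : y0 i = 0 := by rw [y0, Pi.single_eq_of_ne hi0]
          rw [Pi.smul_apply, h8, smul_zero]
          by_cases hi1 : i = 1
          · rw [hi1, hy1]
          · exact hyi i hi0 hi1
      apply hzne
      rw [← z.mk_rep]
      refine (Projectivization.mk_eq_mk_iff' ℂ _ _ _ _).mpr ⟨t⁻¹ * y 0, ?_⟩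
      rw [mul_smul, ← map_smul, ← h7, hLy, smul_smul, inv_mul_cancel₀ ht, one_smul]
  intro hconn
  have hcl : IsZClosed {p : PS (Fin 5) | MvPolynomial.eval p.rep H' = 0} := by
    refine ⟨{H'}, ?_, ?_⟩
    · rintro f rfl
      exact ⟨k, hH'h⟩
    · ext p
      simp
  have hcov : kLocus XZ o L 3 ⊆ {z0} ∪ {p : PS (Fin 5) | MvPolynomial.eval p.rep H' = 0} := by
    intro z hz
    by_cases h : z = z0
    · exact Or.inl h
    · exact Or.inr (hvan z hz h)
  have hdis : kLocus XZ o L 3 ∩ {z0} ∩ {p : PS (Fin 5) | MvPolynomial.eval p.rep H' = 0} = ∅ := by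
    refine Set.eq_empty_iff_forall_notMem.mpr ?_
    rintro z ⟨⟨-, hz⟩, h⟩
    rw [Set.mem_singleton_iff] at hz
    rw [hz] at h
    exact hk ((eval_rep_mk hH'h _ hw0).mp h)
  have hfin := hconn {z0} {p | MvPolynomial.eval p.rep H' = 0} (closed_point _ hw0) hcl hcov hdis
  rcases hfin with h | h
  · exact hz (h m1)
  · exact hk ((eval_rep_mk hH'h _ hw0).mp (h m0))

/-- the form that defines the exceptional centres -/
noncomputable def BP : MvPolynomial (Fin 6) ℂ :=
  MvPolynomial.X 1 * MvPolynomial.X 4 *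
    (MvPolynomial.X 5 ^ 5 - MvPolynomial.X 4 ^ 5 -
      MvPolynomial.X 2 * MvPolynomial.X 4 * MvPolynomial.X 5 ^ 3 +
      MvPolynomial.X 3 * MvPolynomial.X 4 ^ 3 * MvPolynomial.X 5) *
    Dl (MvPolynomial.X 2) (MvPolynomial.X 3) (MvPolynomial.X 1) (MvPolynomial.X 4)
      (MvPolynomial.X 5) * FP 0

theorem eval_BP (o : Fin 6 → ℂ) : MvPolynomial.eval o BP =
    o 1 * o 4 * dlt o * Dl (o 2) (o 3) (o 1) (o 4) (o 5) * G 0 o := by
  rw [BP, map_mul, eval_FP]
  congr 1
  simp only [Dl, dlt, map_add, map_sub, map_mul, map_pow, MvPolynomial.eval_X]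

theorem BP_hom : BP.IsHomogeneous 18 := by
  have hX : ∀ i : Fin 6, (MvPolynomial.X i : MvPolynomial (Fin 6) ℂ).IsHomogeneous 1 := fun i =>
    MvPolynomial.isHomogeneous_X _ _
  have d1 := ((((hX 5).pow 5).sub ((hX 4).pow 5)).sub (((hX 2).mul (hX 4)).mul ((hX 5).pow 3))).add
    (((hX 3).mul ((hX 4).pow 3)).mul (hX 5))
  have hA := hX 2
  have hB := hX 3
  have hC := hX 1
  have hD := hX 4
  have hE := hX 5
  have e1 := (((hA.mul hB).mul hC).mul hD).mul hE
  have e2 := ((hA.pow 2).mul (hD.pow 2)).mul hE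
  have e3 := (hA.mul (hC.pow 2)).mul (hE.pow 2)
  have e4 := (hA.mul hC).mul (hD.pow 3)
  have e5 := (hA.mul hD).mul (hE.pow 3)
  have e6 := ((hB.pow 2).mul hD).mul (hE.pow 2)
  have e7 := (hB.mul (hC.pow 2)).mul (hD.pow 2)
  have e8 := (hB.mul hC).mul (hE.pow 3)
  have e9 := (hB.mul (hD.pow 3)).mul hE
  have e10 := ((hC.pow 3).mul hD).mul hE
  have e11 := (hC.mul (hD.pow 2)).mul (hE.pow 2)
  have e12 := hD.pow 5
  have e13 := hE.pow 5
  have hDl := ((((((((((((e1.sub e2).sub e3).add e4).add (e5.add e5)).sub e6).sub e7).add e8).add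
    (e9.add e9)).add e10).sub ((e11.add e11).add e11)).sub e12).sub e13)
  exact ((((hX 1).mul (hX 4)).mul d1).mul hDl).mul (G_hom 0)

end Pool.Agent.H286R5
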