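import Mathlib
import Pool.Agent.H286R5.ZakMain
import Pool.Agent.H553R3.ZakCong
import Pool.Agent.H885R3.ZakVar

/-!
The connectedness conjecture fails.
-/

namespace Pool.Agent.H286R5

open Pool.Agent.H286R4 Module

theorem congX : CongX := fun _ _ t c ht h => Pool.Agent.H553R3.fibDegGE_congr t c ht h

theorem BP_base : MvPolynomial.eval ![0, 1, 0, 0, 1, 2] BP ≠ 0 := by
  rw [eval_BP]
  have e0 : (![0, 1, 0, 0, 1, 2] : Fin 6 → ℂ) 0 = 0 := rfl
  have e1 : (![0, 1, 0, 0, 1, 2] : Fin 6 → ℂ) 1 = 1 := rfl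
  have e2 : (![0, 1, 0, 0, 1, 2] : Fin 6 → ℂ) 2 = 0 := rfl
  have e3 : (![0, 1, 0, 0, 1, 2] : Fin 6 → ℂ) 3 = 0 := rfl
  have e4 : (![0, 1, 0, 0, 1, 2] : Fin 6 → ℂ) 4 = 1 := rfl
  have e5 : (![0, 1, 0, 0, 1, 2] : Fin 6 → ℂ) 5 = 2 := rfl
  simp only [dlt, Dl, G, R1, e0, e1, e2, e3, e4, e5]
  norm_num

/-- for centres off the exceptional hypersurface the triple locus is disconnected -/
theorem general {o : Fin 6 → ℂ} (ho : o ≠ 0) (h1 : MvPolynomial.eval o BP ≠ 0) :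
    Projectivization.mk ℂ o ho ∉ XZ ∧
      ∀ L : (Fin 6 → ℂ) →ₗ[ℂ] (Fin 5 → ℂ), Function.Surjective L → L o = 0 →
        ¬ IsZConnected (kLocus XZ o L 3) := by
  rw [eval_BP] at h1
  have hG0 := right_ne_zero_of_mul h1
  have h2 := left_ne_zero_of_mul h1
  have hD := right_ne_zero_of_mul h2
  have h3 := left_ne_zero_of_mul h2
  have hd := right_ne_zero_of_mul h3
  have h4 := left_ne_zero_of_mul h3
  refine ⟨fun hX => ?_, fun L hL hLo => ?_⟩
  · have h5 := (eval_rep_mk (G := FP 0) (G_hom 0) o ho).mp (FP_van 0 _ hX)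
    rw [eval_FP] at h5
    exact hG0 h5
  · exact disconnected congX o (left_ne_zero_of_mul h4) (right_ne_zero_of_mul h4) hd hD hG0
      L hL hLo

theorem counterexample :
    IsVariety XZ ∧ HasDim XZ 3 ∧ Nondegenerate XZ ∧
      ∃ Z : Set (PS (Fin 6)), IsZClosed Z ∧ Z ≠ Set.univ ∧
        ∀ (o : Fin 6 → ℂ) (ho : o ≠ 0), Projectivization.mk ℂ o ho ∉ Z →
          Projectivization.mk ℂ o ho ∉ XZ ∧
          ∀ L : (Fin 6 → ℂ) →ₗ[ℂ] (Fin 5 → ℂ), Function.Surjective L → L o = 0 →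
            ¬ IsZConnected (kLocus XZ o L 3) := by
  refine ⟨Pool.Agent.H885R3.ZakVar.taskVar, Pool.Agent.H343R3.Zak.taskDim,
    Pool.Agent.H82R3.Zak.taskNondeg, {p | MvPolynomial.eval p.rep BP = 0}, ?_, ?_, ?_⟩
  · refine ⟨{BP}, ?_, ?_⟩
    · rintro f rfl
      exact ⟨18, BP_hom⟩
    · ext p
      simp
  · intro h
    have hne : (![0, 1, 0, 0, 1, 2] : Fin 6 → ℂ) ≠ 0 := by
      intro h0
      exact one_ne_zero (congrFun h0 1)
    have h1 : Projectivization.mk ℂ _ hne ∈ {p : PS (Fin 6) | MvPolynomial.eval p.rep BP = 0} := by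
      rw [h]; trivial
    exact BP_base ((eval_rep_mk BP_hom _ hne).mp h1)
  · intro o ho hoZ
    exact general ho fun h0 => hoZ ((eval_rep_mk BP_hom o ho).mpr h0)

theorem exists_proj {o : Fin 6 → ℂ} (ho : o ≠ 0) :
    ∃ L : (Fin 6 → ℂ) →ₗ[ℂ] (Fin 5 → ℂ), Function.Surjective L ∧ L o = 0 := by
  have h1 := Submodule.finrank_quotient_add_finrank (Submodule.span ℂ {o})
  rw [finrank_span_singleton ho, finrank_fin_fun] at h1
  have h2 : finrank ℂ ((Fin 6 → ℂ) ⧸ Submodule.span ℂ {o}) = finrank ℂ (Fin 5 → ℂ) := by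
    rw [finrank_fin_fun]; omega
  refine ⟨(LinearEquiv.ofFinrankEq _ _ h2).toLinearMap.comp (Submodule.mkQ _), ?_, ?_⟩
  · exact (LinearEquiv.surjective _).comp (Submodule.mkQ_surjective _)
  · rw [LinearMap.comp_apply]
    have h3 : (Submodule.span ℂ {o}).mkQ o = 0 := by
      rw [Submodule.mkQ_apply, Submodule.Quotient.mk_eq_zero]
      exact Submodule.mem_span_singleton_self o
    rw [h3, map_zero]

theorem not_zak : ¬ ZakConnectedness := by
  intro h
  obtain ⟨hvar, hdim, hnon, -⟩ := counterexample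
  obtain ⟨Z', ⟨I, hI, hZ'I⟩, hZ'n, hZ'⟩ := h 5 3 3 XZ hvar hdim hnon (by norm_num) (by norm_num)
    (by norm_num)
  obtain ⟨p, hp⟩ := (Set.ne_univ_iff_exists_notMem _).mp hZ'n
  rw [hZ'I] at hp
  have hp' : ∃ f ∈ I, MvPolynomial.eval p.rep f ≠ 0 := by
    by_contra hne
    push Not at hne
    exact hp hne
  obtain ⟨f, hfI, hf⟩ := hp'
  obtain ⟨k, hk⟩ := hI f hfI
  have hf0 : f ≠ 0 := by
    rintro rfl
    exact hf (map_zero _)
  have hB0 : BP ≠ 0 := by
    intro h0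
    apply BP_base
    rw [h0, map_zero]
  have hprod : ∃ o, MvPolynomial.eval o (f * BP) ≠ 0 := by
    by_contra hne
    push Not at hne
    exact mul_ne_zero hf0 hB0 (MvPolynomial.funext fun o => by rw [hne o, map_zero])
  obtain ⟨o, hoe⟩ := hprod
  rw [map_mul] at hoe
  have hof := left_ne_zero_of_mul hoe
  have hoB := right_ne_zero_of_mul hoe
  have ho : o ≠ 0 := by
    rintro rfl
    apply hoB
    rw [eval_BP, Pi.zero_apply]
    simp
  obtain ⟨L, hL, hLo⟩ := exists_proj ho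
  obtain ⟨g1, g2⟩ := general ho hoB
  refine g2 L hL hLo (hZ' o ho ?_ g1 L hL hLo)
  intro hmem
  rw [hZ'I] at hmem
  exact hof ((eval_rep_mk hk o ho).mp (hmem f hfI))

end Pool.Agent.H286R5
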